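import Pool.Agent.R154.Steiner.Min

set_option autoImplicit false

open scoped MeasureTheory ENNReal Topology InnerProductSpace
open MeasureTheory Set Filter

namespace Pool.Agent.R154.Steiner

/-- The point `ρ e^{iθ}`. -/
noncomputable def pol (ρ θ : ℝ) : ℂ := ρ * Complex.exp (θ * Complex.I)

lemma norm_pol {ρ : ℝ} (hρ : 0 ≤ ρ) (θ : ℝ) : ‖pol ρ θ‖ = ρ := by
  unfold pol
  rw [norm_mul, Complex.norm_exp_ofReal_mul_I, mul_one, Complex.norm_real, Real.norm_of_nonneg hρ]

lemma arg_pol {ρ θ : ℝ} (hρ : 0 < ρ) (hθ : θ ∈ Ioc (-Real.pi) Real.pi) :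
    Complex.arg (pol ρ θ) = θ := by
  unfold pol
  rw [Complex.exp_mul_I]
  exact Complex.arg_mul_cos_add_sin_mul_I hρ hθ

lemma pol_arg (z : ℂ) : pol ‖z‖ (Complex.arg z) = z := Complex.norm_mul_exp_arg_mul_I z

lemma continuous_pol : Continuous fun p : ℝ × ℝ => pol p.1 p.2 := by
  unfold pol
  fun_prop

/-- The open annular sector. -/
def sector (ρ α β : ℝ) : Set ℂ := {z | ρ < ‖z‖ ∧ Complex.arg z ∈ Ioo α β}

lemma measurableSet_sector (ρ α β : ℝ) : MeasurableSet (sector ρ α β) :=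
  (measurableSet_lt measurable_const measurable_norm).inter
    (Complex.measurable_arg measurableSet_Ioo)

lemma isOpen_sector {ρ α β : ℝ} (hβ : β ≤ Real.pi) (hρ : 0 ≤ ρ) :
    IsOpen (sector ρ α β) := by
  have h1 : IsOpen (Complex.slitPlane ∩ Complex.arg ⁻¹' Ioo α β) := by
    refine ContinuousOn.isOpen_inter_preimage ?_ Complex.isOpen_slitPlane isOpen_Ioo
    intro z hz
    exact (Complex.continuousAt_arg hz).continuousWithinAt
  have h2 : sector ρ α β = {z | ρ < ‖z‖} ∩ (Complex.slitPlane ∩ Complex.arg ⁻¹' Ioo α β) := by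
    ext z
    constructor
    · rintro ⟨h1, h2⟩
      refine ⟨h1, ?_, h2⟩
      rw [Complex.mem_slitPlane_iff_arg]
      refine ⟨(h2.2.trans_le hβ).ne, ?_⟩
      intro h
      rw [h, norm_zero] at h1
      linarith
    · rintro ⟨h1, _, h2⟩
      exact ⟨h1, h2⟩
  rw [h2]
  exact (isOpen_lt continuous_const continuous_norm).inter h1

/-- The radial projection onto the unit circle. -/
lemma radial_lip {η : ℝ} (hη1 : η < 1) :
    LipschitzWith (Real.toNNReal (1 - η)⁻¹) (fun z : ℂ => proj ((1 - η)⁻¹ • z)) := by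
  have h1 : 0 < 1 - η := by linarith
  refine LipschitzWith.of_dist_le_mul fun z w => ?_
  refine (proj_lip _ _).trans ?_
  rw [dist_smul₀, Real.coe_toNNReal _ (by positivity), Real.norm_of_nonneg (by positivity)]

lemma radial_pol {η ρ θ : ℝ} (hη1 : η < 1) (hρ : 1 - η < ρ) :
    proj ((1 - η)⁻¹ • pol ρ θ) = pol 1 θ := by
  have h1 : 0 < 1 - η := by linarith
  have h2 : ‖(1 - η)⁻¹ • pol ρ θ‖ = (1 - η)⁻¹ * ρ := by
    rw [norm_smul, norm_pol (by linarith), Real.norm_of_nonneg (by positivity)]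
  have h3 : 1 < (1 - η)⁻¹ * ρ := by
    rw [inv_mul_eq_div, one_lt_div h1]; exact hρ
  unfold proj
  rw [h2, if_neg (by linarith), smul_smul]
  unfold pol
  have h4 : ((1 - η)⁻¹ * ρ)⁻¹ * (1 - η)⁻¹ * ρ = 1 := by
    have : ρ ≠ 0 := by linarith
    field_simp
  rw [Complex.real_smul, ← mul_assoc, ← Complex.ofReal_mul, h4]

/-- An arc is at least as long as its chord. -/
lemma arc_ge {α β : ℝ} (h : α < β) :
    ENNReal.ofReal (dist (pol 1 α) (pol 1 β)) ≤ μH[1] (pol 1 '' Ioo α β) := by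
  have hc : Continuous (pol 1) := continuous_pol.comp (Continuous.prodMk_right (1:ℝ))
  have h1 : IsPreconnected (pol 1 '' Icc α β) := isPreconnected_Icc.image _ hc.continuousOn
  have h2 := H_conn h1 (mem_image_of_mem _ (left_mem_Icc.mpr h.le))
    (mem_image_of_mem _ (right_mem_Icc.mpr h.le))
  refine h2.trans ?_
  have h3 : pol 1 '' Icc α β ⊆ pol 1 '' Ioo α β ∪ ({pol 1 α} ∪ {pol 1 β}) := by
    rintro _ ⟨s, hs, rfl⟩
    rcases eq_or_lt_of_le hs.1 with h4 | h4
    · rw [← h4]; simp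
    rcases eq_or_lt_of_le hs.2 with h5 | h5
    · rw [h5]; simp
    · exact Or.inl ⟨s, ⟨h4, h5⟩, rfl⟩
  calc μH[1] (pol 1 '' Icc α β) ≤ μH[1] (pol 1 '' Ioo α β ∪ ({pol 1 α} ∪ {pol 1 β})) :=
        measure_mono h3
    _ ≤ μH[1] (pol 1 '' Ioo α β) + (μH[1] ({pol 1 α} : Set ℂ) + μH[1] ({pol 1 β} : Set ℂ)) :=
        (measure_union_le _ _).trans (add_le_add le_rfl (measure_union_le _ _))
    _ = μH[1] (pol 1 '' Ioo α β) := by rw [noAtom, noAtom]; simp

/-- The direction `s` is not hit by `T` in the outer annulus. -/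
def Miss (T : Set ℂ) (η s : ℝ) : Prop := ∀ ρ, 1 - η < ρ → ρ ≤ 1 → pol ρ s ∉ T

lemma hit_sector {T : Set ℂ} {η α β : ℝ} (hη1 : η < 1) (hα : -Real.pi ≤ α)
    (hβ : β ≤ Real.pi) (hαβ : α < β) (hit : ∀ s ∈ Ioo α β, ¬ Miss T η s) :
    ENNReal.ofReal ((1 - η) * dist (pol 1 α) (pol 1 β)) ≤ μH[1] (T ∩ sector (1 - η) α β) := by
  have h1 : 0 < 1 - η := by linarith
  have h2 : pol 1 '' Ioo α β ⊆ (fun z : ℂ => proj ((1 - η)⁻¹ • z)) '' (T ∩ sector (1 - η) α β) := by
    rintro _ ⟨s, hs, rfl⟩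
    have h3 := hit s hs
    unfold Miss at h3
    push Not at h3
    obtain ⟨ρ, h4, h5, h6⟩ := h3
    refine ⟨pol ρ s, ⟨h6, ?_, ?_⟩, radial_pol hη1 h4⟩
    · rw [norm_pol (by linarith)]; exact h4
    · rw [arg_pol (by linarith) ⟨hα.trans_lt hs.1, (hs.2.trans_le hβ).le⟩]; exact hs
  have h3 := (radial_lip hη1).hausdorffMeasure_image_le (d := 1) zero_le_one
    (T ∩ sector (1 - η) α β)
  have h4 : ENNReal.ofReal (dist (pol 1 α) (pol 1 β)) ≤
      ENNReal.ofReal (1 - η)⁻¹ * μH[1] (T ∩ sector (1 - η) α β) := by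
    refine (arc_ge hαβ).trans ((measure_mono h2).trans (h3.trans_eq ?_))
    rw [ENNReal.rpow_one]
    rfl
  calc ENNReal.ofReal ((1 - η) * dist (pol 1 α) (pol 1 β))
      = ENNReal.ofReal (1 - η) * ENNReal.ofReal (dist (pol 1 α) (pol 1 β)) :=
        ENNReal.ofReal_mul h1.le
    _ ≤ ENNReal.ofReal (1 - η) * (ENNReal.ofReal (1 - η)⁻¹ * μH[1] (T ∩ sector (1 - η) α β)) := by
        gcongr
    _ = μH[1] (T ∩ sector (1 - η) α β) := by
        rw [← mul_assoc, ← ENNReal.ofReal_mul h1.le, mul_inv_cancel₀ h1.ne', ENNReal.ofReal_one,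
          one_mul]

/-- Between two missed directions the connected set `T` has to reach the inner circle. -/
lemma miss_sector {T : Set ℂ} (hT : IsPreconnected T) (hball : ∀ z ∈ T, ‖z‖ ≤ 1)
    {η α β θ θ' : ℝ} (hη1 : η < 1) (hα : -Real.pi < α) (hβ : β < Real.pi)
    (hmα : Miss T η α) (hmβ : Miss T η β) (hθ : θ ∈ Ioo α β) (hθT : pol 1 θ ∈ T)
    (hθ' : θ' ∈ Ioo (-Real.pi) α) (hθ'T : pol 1 θ' ∈ T) :
    ENNReal.ofReal η ≤ μH[1] (T ∩ sector (1 - η) α β) := by
  have hαβ : α < β := hθ.1.trans hθ.2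
  have key : Ioo (1 - η) 1 ⊆ (fun z : ℂ => ‖z‖) '' (T ∩ sector (1 - η) α β) := by
    intro ρ hρ
    have hρ0 : 0 < ρ := by linarith [hρ.1]
    by_contra hcon
    have hcon' : ∀ z ∈ T, Complex.arg z ∈ Ioo α β → ‖z‖ ≠ ρ := by
      intro z hz harg hn
      exact hcon ⟨z, ⟨hz, by rw [hn]; exact hρ.1, harg⟩, hn⟩
    set C : Set ℂ := (fun p : ℝ × ℝ => pol p.1 p.2) '' (Icc ρ 1 ×ˢ Icc α β) with hC
    have hCc : IsCompact C := (isCompact_Icc.prod isCompact_Icc).image continuous_pol
    have hargC : ∀ z ∈ C, Complex.arg z ∈ Icc α β := by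
      rintro _ ⟨⟨r, s⟩, ⟨hr, hs⟩, rfl⟩
      simp only at hr hs ⊢
      rw [arg_pol (by linarith [hr.1]) ⟨by linarith [hs.1], by linarith [hs.2]⟩]
      exact hs
    have hsub : T ⊆ sector ρ α β ∪ Cᶜ := by
      intro z hz
      by_cases hzC : z ∈ C
      · left
        obtain ⟨⟨r, s⟩, ⟨hr, hs⟩, rfl⟩ := hzC
        simp only at hr hs hz ⊢
        have hr0 : 0 < r := by linarith [hr.1]
        have harg : Complex.arg (pol r s) = s :=
          arg_pol hr0 ⟨by linarith [hs.1], by linarith [hs.2]⟩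
        have h1 : α ≠ s := by
          rintro rfl
          exact hmα r (by linarith [hr.1, hρ.1]) hr.2 hz
        have h2 : s ≠ β := by
          rintro rfl
          exact hmβ r (by linarith [hr.1, hρ.1]) hr.2 hz
        have h3 : s ∈ Ioo α β := ⟨lt_of_le_of_ne hs.1 h1, lt_of_le_of_ne hs.2 h2⟩
        have h4 := hcon' _ hz (by rw [harg]; exact h3)
        rw [norm_pol hr0.le] at h4
        refine ⟨?_, by rw [harg]; exact h3⟩
        rw [norm_pol hr0.le]
        exact lt_of_le_of_ne hr.1 h4.symm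
      · exact Or.inr hzC
    obtain ⟨z, hzT, hz1, hz2⟩ := hT _ _ (isOpen_sector hβ.le hρ0.le) hCc.isClosed.isOpen_compl
      hsub ⟨pol 1 θ, hθT, by
        refine ⟨by rw [norm_pol zero_le_one]; exact hρ.2, ?_⟩
        rw [arg_pol one_pos ⟨by linarith [hθ.1], by linarith [hθ.2]⟩]
        exact hθ⟩ ⟨pol 1 θ', hθ'T, fun h => by
        have h1 := hargC _ h
        rw [arg_pol one_pos ⟨hθ'.1, by linarith [hθ'.2]⟩] at h1
        exact absurd h1.1 (not_le.mpr hθ'.2)⟩
    apply hz2
    refine ⟨(‖z‖, Complex.arg z), ⟨⟨hz1.1.le, hball z hzT⟩, ⟨hz1.2.1.le, hz1.2.2.le⟩⟩, pol_arg z⟩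
  have h1 : volume ((fun z : ℂ => ‖z‖) '' (T ∩ sector (1 - η) α β)) ≤
      μH[1] (T ∩ sector (1 - η) α β) := H_lip lipschitzWith_one_norm _
  calc ENNReal.ofReal η = volume (Ioo (1 - η) 1) := by rw [Real.volume_Ioo]; congr 1; ring
    _ ≤ _ := measure_mono key
    _ ≤ _ := h1

/-- The direction of the `i`-th terminal. -/
noncomputable def dir (n i : ℕ) : ℝ := -Real.pi + 2 * Real.pi * (i + 1 / 2) / (n + 1)

lemma dir_lt (n : ℕ) {i j : ℕ} (h : i < j) : dir n i < dir n j := by
  unfold dir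
  have h1 : (i:ℝ) < j := by exact_mod_cast h
  have hpi := Real.pi_pos
  have h2 : 2 * Real.pi * (i + 1 / 2) / ((n:ℝ) + 1) < 2 * Real.pi * (j + 1 / 2) / (n + 1) := by
    gcongr
  linarith

lemma dir_le (n : ℕ) {i j : ℕ} (h : i ≤ j) : dir n i ≤ dir n j := by
  rcases h.lt_or_eq with h | h
  · exact (dir_lt n h).le
  · rw [h]

lemma neg_pi_lt_dir (n i : ℕ) : -Real.pi < dir n i := by
  unfold dir
  have hpi := Real.pi_pos
  have : 0 < 2 * Real.pi * (i + 1 / 2) / ((n:ℝ) + 1) := by positivity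
  linarith

lemma dir_lt_pi {n i : ℕ} (h : i ≤ n) : dir n i < Real.pi := by
  unfold dir
  have hpi := Real.pi_pos
  have h1 : (i:ℝ) ≤ n := by exact_mod_cast h
  have : 2 * Real.pi * (i + 1 / 2) / ((n:ℝ) + 1) < 2 * Real.pi := by
    rw [div_lt_iff₀ (by positivity)]
    nlinarith
  linarith

lemma dist_dir (n i : ℕ) :
    dist (pol 1 (dir n i)) (pol 1 (dir n (i + 1))) = 2 * Real.sin (Real.pi / (n + 1)) := by
  have hpi := Real.pi_pos
  have h1 : dir n (i + 1) = dir n i + 2 * (Real.pi / (n + 1)) := by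
    unfold dir; push_cast; field_simp; ring
  rw [dist_comm, dist_eq_norm, h1]
  unfold pol
  set a := dir n i
  set b := Real.pi / ((n:ℝ) + 1) with hb
  have hb0 : 0 ≤ Real.sin b := by
    apply Real.sin_nonneg_of_nonneg_of_le_pi (by positivity)
    rw [hb]
    apply div_le_self hpi.le
    have : (0:ℝ) ≤ n := n.cast_nonneg
    linarith
  have h2 : ((1:ℝ):ℂ) * Complex.exp (((a + 2 * b : ℝ) : ℂ) * Complex.I) -
      ((1:ℝ):ℂ) * Complex.exp ((a:ℂ) * Complex.I) =
      Complex.exp (((a + b : ℝ):ℂ) * Complex.I) * ((2 * Real.sin b : ℝ) * Complex.I) := by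
    push_cast
    rw [Complex.sin]
    have e1 : Complex.exp ((↑a + 2 * ↑b) * Complex.I) =
      Complex.exp ((↑a + ↑b) * Complex.I) * Complex.exp (↑b * Complex.I) := by
      rw [← Complex.exp_add]; congr 1; ring
    have e2 : Complex.exp (↑a * Complex.I) =
      Complex.exp ((↑a + ↑b) * Complex.I) * Complex.exp (-↑b * Complex.I) := by
      rw [← Complex.exp_add]; congr 1; ring
    rw [e1, e2]
    linear_combination (Complex.exp ((↑a + ↑b) * Complex.I) * (Complex.exp (↑b * Complex.I) - Complex.exp (-↑b * Complex.I))) * Complex.I_sq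
  rw [h2, norm_mul, Complex.norm_exp_ofReal_mul_I, one_mul, norm_mul, Complex.norm_I, mul_one,
    Complex.norm_real, Real.norm_of_nonneg (by positivity)]

lemma sector_disjoint {ρ α β α' β' : ℝ} (h : β ≤ α') : Disjoint (sector ρ α β) (sector ρ α' β') := by
  rw [Set.disjoint_left]
  rintro z ⟨_, h1⟩ ⟨_, h2⟩
  linarith [h1.2, h2.1]

/-- The main estimate on the unit circle. -/
theorem ring_lower {T : Set ℂ} (hTc : IsClosed T) (hT : IsPreconnected T)
    (hball : ∀ z ∈ T, ‖z‖ ≤ 1) (hfin : μH[1] T ≠ ⊤) {n : ℕ}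
    (hterm : ∀ i ≤ n, pol 1 (dir n i) ∈ T) {η : ℝ} (hη0 : 0 < η) (hη1 : η < 1) :
    (n - 1 - (μH[1] T).toReal / η) * ((1 - η) * (2 * Real.sin (Real.pi / (n + 1)))) ≤
      (μH[1] T).toReal := by
  classical
  set h := (μH[1] T).toReal with hh
  set w := (1 - η) * (2 * Real.sin (Real.pi / (n + 1))) with hw
  have hpi := Real.pi_pos
  have hw0 : 0 ≤ w := by
    have : 0 ≤ Real.sin (Real.pi / (n + 1)) := by
      apply Real.sin_nonneg_of_nonneg_of_le_pi (by positivity)
      apply div_le_self hpi.le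
      have : (0:ℝ) ≤ n := n.cast_nonneg
      linarith
    have : 0 < 1 - η := by linarith
    positivity
  set M := (Finset.range n).filter (fun i => ∃ s ∈ Ioo (dir n i) (dir n (i + 1)), Miss T η s)
    with hM
  set G := (Finset.range n).filter (fun i => ¬ ∃ s ∈ Ioo (dir n i) (dir n (i + 1)), Miss T η s)
    with hG
  have hcard : M.card + G.card = n := by
    rw [hM, hG, Finset.card_filter_add_card_filter_not, Finset.card_range]
  -- the sectors without missed directions
  have h1 : (G.card : ℝ) * w ≤ h := by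
    have e1 : ∑ i ∈ G, ENNReal.ofReal w ≤ μH[1] T := by
      calc ∑ i ∈ G, ENNReal.ofReal w
          ≤ ∑ i ∈ G, μH[1] (T ∩ sector (1 - η) (dir n i) (dir n (i + 1))) := by
            refine Finset.sum_le_sum fun i hi => ?_
            rw [hG, Finset.mem_filter, Finset.mem_range] at hi
            have := hit_sector (T := T) hη1 (neg_pi_lt_dir n i).le
              (dir_lt_pi (n := n) (i := i + 1) hi.1).le (dir_lt n i.lt_succ_self)
              (fun s hs hm => hi.2 ⟨s, hs, hm⟩)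
            rwa [dist_dir] at this
        _ = μH[1] (⋃ i ∈ G, T ∩ sector (1 - η) (dir n i) (dir n (i + 1))) := by
            refine (measure_biUnion_finset ?_ ?_).symm
            · intro i _ j _ hij
              refine Disjoint.mono inter_subset_right inter_subset_right ?_
              rcases Nat.lt_or_gt_of_ne hij with h | h
              · exact sector_disjoint (dir_le n h)
              · exact (sector_disjoint (dir_le n h)).symm
            · intro i _
              exact hTc.measurableSet.inter (measurableSet_sector _ _ _)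
        _ ≤ μH[1] T := measure_mono (iUnion₂_subset fun _ _ => inter_subset_left)
    rw [Finset.sum_const, nsmul_eq_mul, ← ENNReal.ofReal_natCast,
      ← ENNReal.ofReal_mul (Nat.cast_nonneg _)] at e1
    have := ENNReal.toReal_mono hfin e1
    rwa [ENNReal.toReal_ofReal (by positivity)] at this
  -- the missed directions
  have h2 : ((M.card : ℝ) - 1) * η ≤ h := by
    rcases Nat.eq_zero_or_pos M.card with h0 | h0
    · rw [h0]
      have : 0 ≤ h := ENNReal.toReal_nonneg
      push_cast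
      linarith
    obtain ⟨m, hm⟩ : ∃ m, M.card = m + 1 := ⟨M.card - 1, by omega⟩
    have hex : ∀ i : ℕ, ∃ s, i ∈ M → s ∈ Ioo (dir n i) (dir n (i + 1)) ∧ Miss T η s := by
      intro i
      by_cases hi : i ∈ M
      · obtain ⟨s, h1, h2⟩ := (Finset.mem_filter.mp hi).2
        exact ⟨s, fun _ => ⟨h1, h2⟩⟩
      · exact ⟨0, fun h => absurd h hi⟩
    choose s hs using hex
    let e : Fin (m + 1) ↪o ℕ := M.orderEmbOfFin hm
    have heM : ∀ l, e l ∈ M := fun l => M.orderEmbOfFin_mem hm l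
    have hen : ∀ l, e l < n := fun l => by
      have := heM l
      rw [hM, Finset.mem_filter, Finset.mem_range] at this
      exact this.1
    have hmono : ∀ l l', l ≤ l' → s (e l) ≤ s (e l') := by
      intro l l' hll
      rcases hll.lt_or_eq with h | h
      · have h3 : e l < e l' := e.strictMono h
        have h4 := (hs _ (heM l)).1.2
        have h5 := (hs _ (heM l')).1.1
        have h6 := dir_le n (Nat.succ_le_of_lt h3)
        rw [Nat.succ_eq_add_one] at h6
        linarith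
      · rw [h]
    have e1 : ∑ l : Fin m, ENNReal.ofReal η ≤ μH[1] T := by
      calc ∑ l : Fin m, ENNReal.ofReal η
          ≤ ∑ l : Fin m, μH[1] (T ∩ sector (1 - η) (s (e l.castSucc)) (s (e l.succ))) := by
            refine Finset.sum_le_sum fun l _ => ?_
            have hl : e l.castSucc < e l.succ := e.strictMono (Fin.castSucc_lt_succ)
            have a1 := hs _ (heM l.castSucc)
            have a2 := hs _ (heM l.succ)
            have hln := hen l.succ
            refine miss_sector (θ := dir n (e l.castSucc + 1)) (θ' := dir n (e l.castSucc)) hT hball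
              hη1 ((neg_pi_lt_dir _ _).trans a1.1.1) (a2.1.2.trans (dir_lt_pi hln)) a1.2 a2.2
              ⟨a1.1.2, (dir_le n hl).trans_lt a2.1.1⟩ (hterm _ (by omega))
              ⟨neg_pi_lt_dir _ _, a1.1.1⟩ (hterm _ (by omega))
        _ = μH[1] (⋃ l : Fin m, T ∩ sector (1 - η) (s (e l.castSucc)) (s (e l.succ))) := by
            rw [measure_iUnion, tsum_fintype]
            · intro l l' hll
              refine Disjoint.mono inter_subset_right inter_subset_right ?_
              rcases lt_or_gt_of_ne hll with h | h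
              · exact sector_disjoint (hmono _ _ (Fin.succ_le_castSucc_iff.mpr h))
              · exact (sector_disjoint (hmono _ _ (Fin.succ_le_castSucc_iff.mpr h))).symm
            · intro i
              exact hTc.measurableSet.inter (measurableSet_sector _ _ _)
        _ ≤ μH[1] T := measure_mono (iUnion_subset fun _ => inter_subset_left)
    rw [Finset.sum_const, nsmul_eq_mul, Finset.card_univ, Fintype.card_fin,
      ← ENNReal.ofReal_natCast, ← ENNReal.ofReal_mul (Nat.cast_nonneg _)] at e1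
    have h3 := ENNReal.toReal_mono hfin e1
    rw [ENNReal.toReal_ofReal (by positivity)] at h3
    rw [hm]
    push_cast
    linarith
  have h3 : (M.card : ℝ) ≤ 1 + h / η := by
    have : (M.card : ℝ) - 1 ≤ h / η := by rwa [le_div_iff₀ hη0]
    linarith
  have h4 : (n:ℝ) - 1 - h / η ≤ G.card := by
    have : (M.card : ℝ) + G.card = n := by exact_mod_cast hcard
    linarith
  calc ((n:ℝ) - 1 - h / η) * w ≤ G.card * w := by gcongr
    _ ≤ h := h1

/-- The limit of the lower bounds. -/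
lemma limit_lower {L : ℝ} (hL0 : 0 ≤ L) (hL7 : L ≤ 7)
    (h : ∀ n : ℕ, ∃ l, 0 ≤ l ∧ l ≤ L ∧ ∀ η : ℝ, 0 < η → η < 1 →
      (n - 1 - l / η) * ((1 - η) * (2 * Real.sin (Real.pi / (n + 1)))) ≤ l) :
    2 * Real.pi ≤ L := by
  have hpi := Real.pi_pos
  have key : ∀ η : ℝ, 0 < η → η < 1 → (1 - η) * (2 * Real.pi) ≤ L := by
    intro η h0 h1
    have hu : Tendsto (fun n : ℕ => 1 / ((n:ℝ) + 1)) atTop (𝓝 0) :=
      tendsto_one_div_add_atTop_nhds_zero_nat
    have hcont : Tendsto (fun u : ℝ => (1 - (2 + 7 / η) * u) * (1 - η) *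
        (2 * (Real.pi - Real.pi ^ 3 * u ^ 2 / 6))) (𝓝 0) (𝓝 ((1 - (2 + 7 / η) * 0) * (1 - η) *
        (2 * (Real.pi - Real.pi ^ 3 * 0 ^ 2 / 6)))) := by
      apply Continuous.tendsto
      fun_prop
    have hlim := hcont.comp hu
    have e1 : (1 - (2 + 7 / η) * 0) * (1 - η) * (2 * (Real.pi - Real.pi ^ 3 * 0 ^ 2 / 6)) =
        (1 - η) * (2 * Real.pi) := by ring
    rw [e1] at hlim
    refine le_of_tendsto hlim ?_
    have hev1 : ∀ᶠ n : ℕ in atTop, 1 / ((n:ℝ) + 1) < 1 / (4 + 7 / η) :=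
      hu.eventually_lt_const (by positivity)
    filter_upwards [hev1] with n hn
    obtain ⟨l, hl0, hlL, hl⟩ := h n
    have h2 := hl η h0 h1
    simp only [Function.comp]
    set u := 1 / ((n:ℝ) + 1) with hudef
    have hu0 : 0 < u := by rw [hudef]; positivity
    have hc0 : 0 < 7 / η := by positivity
    have hu1 : u * (4 + 7 / η) < 1 := by rwa [lt_div_iff₀ (by positivity)] at hn
    have hpi4 : Real.pi ≤ 4 := Real.pi_le_four
    have hx1 : Real.pi * u ≤ 1 := by nlinarith
    have hx0 : 0 < Real.pi * u := by positivity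
    have hsin := Real.sin_gt_sub_cube hx0
    have hn1 : (n:ℝ) + 1 = 1 / u := by rw [hudef]; field_simp
    have hn2 : Real.pi / ((n:ℝ) + 1) = Real.pi * u := by rw [hn1]; field_simp
    have hn3 : (n:ℝ) = 1 / u - 1 := by linarith
    have hlc : l / η ≤ 7 / η := by gcongr; linarith
    rw [hn2] at h2
    have hsin0 : 0 ≤ Real.sin (Real.pi * u) :=
      Real.sin_nonneg_of_nonneg_of_le_pi hx0.le (hx1.trans (by linarith [Real.pi_gt_three]))
    have hη' : 0 ≤ 1 - η := by linarith
    have hpos : 0 ≤ 1 - (2 + 7 / η) * u := by nlinarith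
    have h3 : ((n:ℝ) - 1 - 7 / η) * ((1 - η) * (2 * Real.sin (Real.pi * u))) ≤ l := by
      refine le_trans ?_ h2
      have : 0 ≤ (1 - η) * (2 * Real.sin (Real.pi * u)) := by positivity
      apply mul_le_mul_of_nonneg_right _ this
      linarith
    have h4 : (n:ℝ) - 1 - 7 / η = (1 - (2 + 7 / η) * u) / u := by
      rw [hn3]; field_simp; ring
    rw [h4] at h3
    have h5 : (1 - (2 + 7 / η) * u) * (1 - η) * (2 * (Real.pi - Real.pi ^ 3 * u ^ 2 / 6)) =
        (1 - (2 + 7 / η) * u) / u * ((1 - η) * (2 * (Real.pi * u - (Real.pi * u) ^ 3 / 6))) := by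
      field_simp
    rw [h5]
    refine le_trans ?_ (h3.trans hlL)
    gcongr
  by_contra hcon
  push Not at hcon
  have h1 := key ((2 * Real.pi - L) / (4 * Real.pi)) (by apply div_pos <;> linarith)
    (by rw [div_lt_one (by positivity)]; linarith)
  have h2 : (1 - (2 * Real.pi - L) / (4 * Real.pi)) * (2 * Real.pi) = 2 * Real.pi - (2 * Real.pi - L) / 2 := by
    field_simp; ring
  rw [h2] at h1
  linarith

end Pool.Agent.R154.Steiner
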