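import Pool.Agent.R154.Steiner.Length
import Pool.Agent.R154.Steiner.Ring

set_option autoImplicit false

open scoped MeasureTheory ENNReal Topology InnerProductSpace
open MeasureTheory Set Filter

namespace Pool.Agent.R154.Steiner

/-- The standard isometry from `ℂ` to the Euclidean plane. -/
noncomputable def iso : ℂ ≃ₗᵢ[ℝ] EuclideanSpace ℝ (Fin 2) := Complex.orthonormalBasisOneI.repr

lemma exp_lip (a b : ℝ) : dist (pol 1 a) (pol 1 b) ≤ dist a b := by
  have h1 : pol 1 a - pol 1 b =
      Complex.exp (b * Complex.I) * (Complex.exp (Complex.I * ((a - b : ℝ) : ℂ)) - 1) := by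
    unfold pol
    rw [mul_sub, ← Complex.exp_add]
    have : (b:ℂ) * Complex.I + Complex.I * ((a - b : ℝ) : ℂ) = a * Complex.I := by
      push_cast; ring
    rw [this]
    push_cast
    ring
  rw [dist_eq_norm, h1, norm_mul, Complex.norm_exp_ofReal_mul_I, one_mul]
  exact Real.norm_exp_I_mul_ofReal_sub_one_le

lemma circle_le (x : EuclideanSpace ℝ (Fin 2)) {r : ℝ} (hr : 0 < r) :
    μH[1] (Metric.sphere x r) ≤ ENNReal.ofReal (2 * Real.pi * r) := by
  have hlip : LipschitzWith (Real.toNNReal r)
      (fun s : ℝ => x + r • iso (pol 1 s)) := by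
    refine LipschitzWith.of_dist_le_mul fun a b => ?_
    rw [dist_add_left, dist_smul₀, Real.coe_toNNReal _ hr.le, Real.norm_of_nonneg hr.le,
      LinearIsometryEquiv.dist_map]
    exact mul_le_mul_of_nonneg_left (exp_lip a b) hr.le
  have hsub : Metric.sphere x r ⊆
      (fun s : ℝ => x + r • iso (pol 1 s)) '' Icc (-Real.pi) Real.pi := by
    intro z hz
    rw [mem_sphere_iff_norm] at hz
    have hn : ‖iso.symm (r⁻¹ • (z - x))‖ = 1 := by
      rw [LinearIsometryEquiv.norm_map, norm_smul, hz, norm_inv, Real.norm_of_nonneg hr.le,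
        inv_mul_cancel₀ hr.ne']
    refine ⟨Complex.arg (iso.symm (r⁻¹ • (z - x))),
      ⟨(Complex.neg_pi_lt_arg _).le, Complex.arg_le_pi _⟩, ?_⟩
    have h1 := pol_arg (iso.symm (r⁻¹ • (z - x)))
    rw [hn] at h1
    simp only
    rw [h1, LinearIsometryEquiv.apply_symm_apply, smul_smul, mul_inv_cancel₀ hr.ne', one_smul]
    abel
  have h := hlip.hausdorffMeasure_image_le (d := 1) zero_le_one (Icc (-Real.pi) Real.pi)
  rw [hausdorffMeasure_real, Real.volume_Icc, ENNReal.rpow_one] at h
  refine (measure_mono hsub).trans (h.trans_eq ?_)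
  rw [show ((Real.toNNReal r : NNReal) : ℝ≥0∞) = ENNReal.ofReal r from rfl,
    ← ENNReal.ofReal_mul hr.le]
  congr 1
  ring

/-- Steiner trees in the plane that are nearly as long as the circle. -/
lemma plane_steiner (n : ℕ) :
    ∃ A S : Set (EuclideanSpace ℝ (Fin 2)), IsCompact A ∧ IsSteinerTree A S ∧
      A ∩ Metric.ball 0 1 = ∅ ∧ ∀ η : ℝ, 0 < η → η < 1 →
      (n - 1 - (μH[1] (S ∩ Metric.ball 0 1)).toReal / η) *
        ((1 - η) * (2 * Real.sin (Real.pi / (n + 1)))) ≤ (μH[1] (S ∩ Metric.ball 0 1)).toReal := by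
  let t : Fin (n + 1) → EuclideanSpace ℝ (Fin 2) := fun i => iso (pol 1 (dir n i))
  have hnorm : ∀ i, ‖t i‖ = 1 := by
    intro i
    show ‖iso (pol 1 (dir n i))‖ = 1
    rw [LinearIsometryEquiv.norm_map, norm_pol zero_le_one]
  obtain ⟨S, hS, hball, hmeas⟩ := exists_steiner t (fun i => (hnorm i).le)
  refine ⟨range t, S, (finite_range t).isCompact, hS, ?_, ?_⟩
  · ext z
    simp only [mem_inter_iff, mem_range, Metric.mem_ball, dist_zero_right, mem_empty_iff_false,
      iff_false, not_and]
    rintro ⟨i, rfl⟩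
    rw [hnorm i]
    simp
  · intro η h0 h1
    rw [hmeas]
    have hpre : μH[1] (iso ⁻¹' S) = μH[1] S :=
      iso.toIsometryEquiv.hausdorffMeasure_preimage 1 S
    rw [← hpre]
    refine ring_lower (hS.1.preimage iso.continuous) ?_ ?_ ?_ ?_ h0 h1
    · have : iso ⁻¹' S = iso.symm '' S := by
        ext z
        constructor
        · intro hz
          exact ⟨iso z, hz, iso.symm_apply_apply z⟩
        · rintro ⟨w, hw, rfl⟩
          show iso (iso.symm w) ∈ S
          rwa [iso.apply_symm_apply]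
      rw [this]
      exact hS.2.1.isPreconnected.image _ iso.symm.continuous.continuousOn
    · intro z hz
      have := hball hz
      rw [Metric.mem_closedBall, dist_zero_right, LinearIsometryEquiv.norm_map] at this
      exact this
    · rw [hpre]
      exact hS.2.2.2.1.ne
    · intro i hi
      exact hS.2.2.1 ⟨⟨i, by omega⟩, rfl⟩

end Pool.Agent.R154.Steiner
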