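import Pool.Agent.R154.Steiner.Min

set_option autoImplicit false

open scoped MeasureTheory ENNReal Topology InnerProductSpace
open MeasureTheory Set Filter

namespace Pool.Agent.R154.Steiner

section sep

variable {E : Type*} [MetricSpace E] [MeasurableSpace E] [BorelSpace E]

/-- A connected set through many well separated points is long. -/
lemma H_sep {ι : Type*} [Fintype ι] {T : Set E} (hTc : IsClosed T) (hT : IsPreconnected T)
    (a : ι → E) (ha : ∀ i, a i ∈ T) {δ : ℝ} (hδ : 0 < δ)
    (hsep : ∀ i j, i ≠ j → δ ≤ dist (a i) (a j)) (hne : ∀ i : ι, ∃ j, j ≠ i) :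
    (Fintype.card ι : ℝ≥0∞) * ENNReal.ofReal (δ / 2) ≤ μH[1] T := by
  have hdisj : Pairwise (Function.onFun Disjoint fun i => T ∩ Metric.ball (a i) (δ / 2)) := by
    intro i j hij
    refine Disjoint.mono inter_subset_right inter_subset_right ?_
    apply Metric.ball_disjoint_ball
    have := hsep i j hij
    linarith
  have hmeas : ∀ i, MeasurableSet (T ∩ Metric.ball (a i) (δ / 2)) := fun i =>
    hTc.measurableSet.inter Metric.isOpen_ball.measurableSet
  have h1 : μH[1] (⋃ i, T ∩ Metric.ball (a i) (δ / 2)) = ∑' i, μH[1] (T ∩ Metric.ball (a i) (δ / 2)) :=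
    measure_iUnion hdisj hmeas
  have h2 : ∀ i, ENNReal.ofReal (δ / 2) ≤ μH[1] (T ∩ Metric.ball (a i) (δ / 2)) := by
    intro i
    obtain ⟨j, hj⟩ := hne i
    refine H_ball hT (ha i) (ha j) ?_
    have := hsep i j hj.symm
    linarith
  calc (Fintype.card ι : ℝ≥0∞) * ENNReal.ofReal (δ / 2)
      = ∑ i : ι, ENNReal.ofReal (δ / 2) := by
        rw [Finset.sum_const, Finset.card_univ, nsmul_eq_mul]
    _ ≤ ∑ i, μH[1] (T ∩ Metric.ball (a i) (δ / 2)) := Finset.sum_le_sum fun i _ => h2 i
    _ = μH[1] (⋃ i, T ∩ Metric.ball (a i) (δ / 2)) := by rw [h1, tsum_fintype]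
    _ ≤ μH[1] T := measure_mono (iUnion_subset fun i => inter_subset_left)

end sep

section upper

variable {E : Type*} [NormedAddCommGroup E] [InnerProductSpace ℝ E] [MeasurableSpace E]
  [BorelSpace E]

/-- Inside a terminal-free ball a Steiner tree is not longer than the sphere. -/
lemma steiner_ball_le {A S : Set E} (hS : IsSteinerTree A S) {x : E} {r : ℝ}
    (hA : A ∩ Metric.ball x r = ∅) (hsph : IsConnected (Metric.sphere x r)) :
    μH[1] (S ∩ Metric.ball x r) ≤ μH[1] (Metric.sphere x r) := by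
  obtain ⟨hcl, hconn, hAS, hfin, hmin⟩ := hS
  rcases (S ∩ Metric.ball x r).eq_empty_or_nonempty with h0 | h0
  · rw [h0]; simp
  by_cases h1 : S ⊆ Metric.ball x r
  · have hA0 : A = ∅ := by
      rw [← hA]
      exact (inter_eq_left.mpr (hAS.trans h1)).symm
    have h2 : μH[1] S ≤ μH[1] ({x} : Set E) :=
      hmin {x} isClosed_singleton isConnected_singleton (by rw [hA0]; exact empty_subset _)
    rw [noAtom] at h2
    calc μH[1] (S ∩ Metric.ball x r) ≤ μH[1] S := measure_mono inter_subset_left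
      _ ≤ 0 := h2
      _ ≤ _ := zero_le
  have hsplit : μH[1] S = μH[1] (S ∩ Metric.ball x r) + μH[1] (S \ Metric.ball x r) :=
    (measure_inter_add_sdiff S Metric.isOpen_ball.measurableSet).symm
  have hcl' : IsClosed ((S \ Metric.ball x r) ∪ Metric.sphere x r) :=
    (hcl.sdiff Metric.isOpen_ball).union Metric.isClosed_sphere
  have hA' : A ⊆ (S \ Metric.ball x r) ∪ Metric.sphere x r := by
    intro a ha
    refine Or.inl ⟨hAS ha, fun h => ?_⟩
    have : a ∈ A ∩ Metric.ball x r := ⟨ha, h⟩
    rw [hA] at this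
    exact this
  have hpre : IsPreconnected ((S \ Metric.ball x r) ∪ Metric.sphere x r) := by
    rw [isPreconnected_closed_iff]
    have key : ∀ U V : Set E, IsClosed U → IsClosed V →
        (S \ Metric.ball x r) ∪ Metric.sphere x r ⊆ U ∪ V →
        Metric.sphere x r ⊆ U →
        (((S \ Metric.ball x r) ∪ Metric.sphere x r) ∩ V).Nonempty →
        (((S \ Metric.ball x r) ∪ Metric.sphere x r) ∩ (U ∩ V)).Nonempty := by
      intro U V hU hV hUV hsU hV'
      by_contra hcon
      rw [not_nonempty_iff_eq_empty] at hcon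
      -- the part of `V` inside the set
      have hVs : ∀ z ∈ V, z ∉ Metric.sphere x r := by
        intro z hz hzs
        have : z ∈ ((S \ Metric.ball x r) ∪ Metric.sphere x r) ∩ (U ∩ V) :=
          ⟨Or.inr hzs, hsU hzs, hz⟩
        rw [hcon] at this
        exact this
      have hpc := isPreconnected_closed_iff.mp hconn.isPreconnected
      have hout : ∀ z, z ∉ Metric.ball x r → z ∉ Metric.sphere x r → r < dist z x := by
        intro z h1 h2
        rw [Metric.mem_ball, not_lt] at h1
        rw [Metric.mem_sphere] at h2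
        exact lt_of_le_of_ne h1 (Ne.symm h2)
      have h3 := hpc (V ∩ {z | r ≤ dist z x}) (Metric.closedBall x r ∪ U)
        (hV.inter (isClosed_le continuous_const (continuous_id.dist continuous_const)))
        (Metric.isClosed_closedBall.union hU) ?_ ?_ ?_
      · obtain ⟨z, hzS, ⟨hzV, hzr⟩, hz2⟩ := h3
        have hzn : z ∉ Metric.ball x r := by
          rw [Metric.mem_ball, not_lt]; exact hzr
        have hzs : z ∉ Metric.sphere x r := hVs z hzV
        rcases hz2 with hz2 | hz2
        · rw [Metric.mem_closedBall] at hz2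
          exact absurd (hout z hzn hzs) (not_lt.mpr hz2)
        · have : z ∈ ((S \ Metric.ball x r) ∪ Metric.sphere x r) ∩ (U ∩ V) :=
            ⟨Or.inl ⟨hzS, hzn⟩, hz2, hzV⟩
          rw [hcon] at this
          exact this
      · intro z hz
        by_cases hzb : z ∈ Metric.ball x r
        · exact Or.inr (Or.inl (Metric.ball_subset_closedBall hzb))
        · rcases hUV (Or.inl ⟨hz, hzb⟩) with h | h
          · exact Or.inr (Or.inr h)
          · refine Or.inl ⟨h, ?_⟩
            rw [Metric.mem_ball, not_lt] at hzb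
            exact hzb
      · obtain ⟨z, hz1, hz2⟩ := hV'
        rcases hz1 with ⟨hzS, hzb⟩ | hz1
        · refine ⟨z, hzS, hz2, ?_⟩
          rw [Metric.mem_ball, not_lt] at hzb
          exact hzb
        · exact absurd hz1 (hVs z hz2)
      · obtain ⟨z, hzS, hzb⟩ := h0
        exact ⟨z, hzS, Or.inl (Metric.ball_subset_closedBall hzb)⟩
    intro U V hU hV hUV hUn hVn
    by_cases hsU : Metric.sphere x r ⊆ U
    · exact key U V hU hV hUV hsU hVn
    by_cases hsV : Metric.sphere x r ⊆ V
    · have := key V U hV hU (by rwa [union_comm V U]) hsV hUn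
      rwa [inter_comm V U] at this
    · have h4 := isPreconnected_closed_iff.mp hsph.isPreconnected U V hU hV
        (subset_union_right.trans hUV) ?_ ?_
      · obtain ⟨z, hz1, hz2⟩ := h4
        exact ⟨z, Or.inr hz1, hz2⟩
      · obtain ⟨z, hz1, hz2⟩ := not_subset.mp hsV
        exact ⟨z, hz1, (hUV (Or.inr hz1)).resolve_right hz2⟩
      · obtain ⟨z, hz1, hz2⟩ := not_subset.mp hsU
        exact ⟨z, hz1, (hUV (Or.inr hz1)).resolve_left hz2⟩
  have hcon' : IsConnected ((S \ Metric.ball x r) ∪ Metric.sphere x r) :=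
    ⟨hsph.nonempty.mono subset_union_right, hpre⟩
  have h5 := hmin _ hcl' hcon' hA'
  have h6 : μH[1] (S ∩ Metric.ball x r) + μH[1] (S \ Metric.ball x r)
      ≤ μH[1] (Metric.sphere x r) + μH[1] (S \ Metric.ball x r) := by
    rw [← hsplit]
    refine h5.trans ((measure_union_le _ _).trans_eq (add_comm _ _))
  have h7 : μH[1] (S \ Metric.ball x r) ≠ ⊤ :=
    ne_top_of_le_ne_top hfin.ne (measure_mono sdiff_subset)
  exact (ENNReal.add_le_add_iff_right h7).mp h6

end upper

section grid

/-- Grid points on the unit sphere. -/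
noncomputable def gridPt {n : ℕ} (x y : ℝ) : EuclideanSpace ℝ (Fin (n + 3)) :=
  WithLp.toLp 2 (Fin.cons x (Fin.cons y (Fin.cons (Real.sqrt (1 - x ^ 2 - y ^ 2)) fun _ => 0)))

lemma norm_gridPt {n : ℕ} {x y : ℝ} (h : x ^ 2 + y ^ 2 ≤ 1) : ‖(gridPt x y : EuclideanSpace ℝ (Fin (n + 3)))‖ = 1 := by
  rw [EuclideanSpace.norm_eq]
  have : ∑ i, ‖(gridPt x y : EuclideanSpace ℝ (Fin (n + 3))) i‖ ^ 2 = 1 := by
    rw [Fin.sum_univ_succ, Fin.sum_univ_succ, Fin.sum_univ_succ]
    simp only [gridPt, Fin.cons_zero, Fin.cons_succ, Real.norm_eq_abs, sq_abs]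
    rw [Real.sq_sqrt (by linarith)]
    simp
  rw [this, Real.sqrt_one]

lemma gridPt_dist {n : ℕ} (x y x' y' : ℝ) :
    |x - x'| ≤ dist (gridPt x y : EuclideanSpace ℝ (Fin (n + 3))) (gridPt x' y') ∧
    |y - y'| ≤ dist (gridPt x y : EuclideanSpace ℝ (Fin (n + 3))) (gridPt x' y') := by
  rw [dist_eq_norm]
  constructor
  · have := PiLp.norm_apply_le (gridPt x y - gridPt x' y' : EuclideanSpace ℝ (Fin (n + 3))) 0
    simpa [gridPt] using this
  · have := PiLp.norm_apply_le (gridPt x y - gridPt x' y' : EuclideanSpace ℝ (Fin (n + 3))) 1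
    simpa [gridPt] using this

/-- In dimension at least three Steiner trees in the unit ball can be arbitrarily long. -/
lemma long_steiner (n k : ℕ) (hk : 2 ≤ k) :
    ∃ A S : Set (EuclideanSpace ℝ (Fin (n + 3))), IsCompact A ∧ IsSteinerTree A S ∧
      A ∩ Metric.ball 0 1 = ∅ ∧ ENNReal.ofReal (k / 4) ≤ μH[1] (S ∩ Metric.ball 0 1) := by
  have hk0 : (0:ℝ) < k := by positivity
  let c : Fin (k * k) → Fin k × Fin k := finProdFinEquiv.symm
  let t : Fin (k * k) → EuclideanSpace ℝ (Fin (n + 3)) :=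
    fun i => gridPt ((c i).1 / (2 * k)) ((c i).2 / (2 * k))
  have hhalf : ∀ i : Fin k, 0 ≤ (i:ℝ) / (2 * k) ∧ (i:ℝ) / (2 * k) ≤ 1 / 2 := by
    intro i
    have h1 : (i:ℝ) < k := by exact_mod_cast i.2
    refine ⟨by positivity, ?_⟩
    rw [div_le_iff₀ (by positivity)]
    linarith
  have hnorm : ∀ i, ‖t i‖ = 1 := by
    intro i
    apply norm_gridPt
    have h1 := hhalf (c i).1
    have h2 := hhalf (c i).2
    nlinarith
  obtain ⟨S, hS, hball, hmeas⟩ := exists_steiner t (fun i => (hnorm i).le)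
  refine ⟨range t, S, (finite_range t).isCompact, hS, ?_, ?_⟩
  · ext z
    simp only [mem_inter_iff, mem_range, Metric.mem_ball, dist_zero_right, mem_empty_iff_false,
      iff_false, not_and]
    rintro ⟨i, rfl⟩
    rw [hnorm i]
    simp
  · rw [hmeas]
    have hstep : ∀ i j : Fin k, i ≠ j → 1 / (2 * k) ≤ |(i:ℝ) / (2 * k) - (j:ℝ) / (2 * k)| := by
      intro i j hij
      rw [← sub_div, abs_div, abs_of_pos (show (0:ℝ) < 2 * k by positivity)]
      apply div_le_div_of_nonneg_right _ (by positivity)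
      have h1 : ((i:ℕ):ℤ) - ((j:ℕ):ℤ) ≠ 0 := by
        intro h
        apply hij
        apply Fin.ext
        omega
      have h2 : (1:ℤ) ≤ |((i:ℕ):ℤ) - ((j:ℕ):ℤ)| := Int.one_le_abs h1
      exact_mod_cast h2
    have h := H_sep (δ := 1 / (2 * k)) hS.1 hS.2.1.isPreconnected t
      (fun i => hS.2.2.1 (mem_range_self i)) (by positivity) ?_ ?_
    · refine le_trans ?_ h
      rw [Fintype.card_fin, ← ENNReal.ofReal_natCast, ← ENNReal.ofReal_mul (by positivity)]
      apply ENNReal.ofReal_le_ofReal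
      push_cast
      rw [show (k:ℝ) * k * (1 / (2 * k) / 2) = k / 4 by field_simp; ring]
    · intro i j hij
      have hc : c i ≠ c j := fun h => hij (finProdFinEquiv.symm.injective h)
      have hd := gridPt_dist (n := n) ((c i).1 / (2 * k)) ((c i).2 / (2 * k)) ((c j).1 / (2 * k))
        ((c j).2 / (2 * k))
      by_cases h1 : (c i).1 = (c j).1
      · have h2 : (c i).2 ≠ (c j).2 := fun h => hc (Prod.ext h1 h)
        exact (hstep _ _ h2).trans hd.2
      · exact (hstep _ _ h1).trans hd.1
    · intro i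
      by_cases hi : i = ⟨0, by positivity⟩
      · refine ⟨⟨1, by nlinarith⟩, ?_⟩
        rw [hi]
        simp
      · exact ⟨_, fun h => hi h.symm⟩

end grid

end Pool.Agent.R154.Steiner
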