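import Pool.Agent.R154.Steiner.Net

set_option autoImplicit false

open scoped MeasureTheory ENNReal Topology InnerProductSpace
open MeasureTheory Set Filter

namespace Pool.Agent.R154.Steiner

variable {E : Type*} [NormedAddCommGroup E] [InnerProductSpace ℝ E]

/-- The radial projection onto the closed unit ball. -/
noncomputable def proj (x : E) : E := if ‖x‖ ≤ 1 then x else (‖x‖⁻¹) • x

lemma proj_of_le {x : E} (h : ‖x‖ ≤ 1) : proj x = x := by simp [proj, h]

lemma norm_proj_le (x : E) : ‖proj x‖ ≤ 1 := by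
  unfold proj
  split_ifs with h
  · exact h
  · push Not at h
    have : 0 < ‖x‖ := by linarith
    rw [norm_smul, norm_inv, norm_norm, inv_mul_cancel₀ this.ne']

lemma proj_obtuse (x w : E) (hw : ‖w‖ ≤ 1) : ⟪x - proj x, w - proj x⟫_ℝ ≤ 0 := by
  unfold proj
  split_ifs with h
  · simp
  · push Not at h
    have hpos : 0 < ‖x‖ := by linarith
    set u : E := (‖x‖⁻¹) • x with hu
    have hx : x = ‖x‖ • u := by rw [hu, smul_smul, mul_inv_cancel₀ hpos.ne', one_smul]
    have hun : ‖u‖ = 1 := by rw [hu, norm_smul, norm_inv, norm_norm, inv_mul_cancel₀ hpos.ne']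
    have h1 : x - u = (‖x‖ - 1) • u := by
      conv_lhs => rw [hx]
      rw [sub_smul, one_smul]
    rw [h1, inner_smul_left, inner_sub_right, real_inner_self_eq_norm_sq, hun]
    have h2 : ⟪u, w⟫_ℝ ≤ ‖u‖ * ‖w‖ := real_inner_le_norm u w
    rw [hun, one_mul] at h2
    simp only [conj_trivial]
    nlinarith

lemma proj_lip (x y : E) : dist (proj x) (proj y) ≤ dist x y := by
  have h1 := proj_obtuse x (proj y) (norm_proj_le y)
  have h2 := proj_obtuse y (proj x) (norm_proj_le x)
  set p := proj x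
  set q := proj y
  have h3 : ⟪p - q, p - q⟫_ℝ ≤ ⟪x - y, p - q⟫_ℝ := by
    have e1 : ⟪x - p, q - p⟫_ℝ = - ⟪x, p - q⟫_ℝ + ⟪p, p - q⟫_ℝ := by
      rw [← neg_sub p q, inner_neg_right, inner_sub_left]; ring
    have e2 : ⟪y - q, p - q⟫_ℝ = ⟪y, p - q⟫_ℝ - ⟪q, p - q⟫_ℝ := by
      rw [inner_sub_left]
    rw [inner_sub_left, inner_sub_left]
    linarith
  have h4 : ⟪x - y, p - q⟫_ℝ ≤ ‖x - y‖ * ‖p - q‖ := real_inner_le_norm _ _
  rw [real_inner_self_eq_norm_sq] at h3
  rw [dist_eq_norm, dist_eq_norm]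
  by_contra hcon
  push Not at hcon
  have h5 : 0 ≤ ‖x - y‖ := norm_nonneg _
  nlinarith

/-- The total length of the network `y`. -/
noncomputable def len {m : ℕ} (y : Fin m × Bool → E) : ℝ :=
  ∑ k, dist (y (k, false)) (y (k, true))

/-- The union of the segments of the network `y`. -/
def body {m : ℕ} (y : Fin m × Bool → E) : Set E := ⋃ k, segment ℝ (y (k, false)) (y (k, true))

lemma isClosed_conn {m : ℕ} : IsClosed {y : Fin m × Bool → E | Conn y} := by
  classical
  let R : Set (Set ((Fin m × Bool) × (Fin m × Bool))) :=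
    {r | ∀ σ τ : Fin m × Bool, Relation.EqvGen (fun σ τ => (σ, τ) ∈ r ∨ σ.1 = τ.1) σ τ}
  have h : {y : Fin m × Bool → E | Conn y} = ⋃ r ∈ R, {y | ∀ p ∈ r, y p.1 = y p.2} := by
    ext y
    simp only [mem_setOf_eq, mem_iUnion, exists_prop]
    constructor
    · intro hy
      exact ⟨{p | y p.1 = y p.2}, hy, fun p hp => hp⟩
    · rintro ⟨r, hr, hy⟩ σ τ
      refine Relation.EqvGen.mono ?_ _ _ (hr σ τ)
      rintro σ τ (h | h)
      · exact Or.inl (hy _ h)
      · exact Or.inr h
  rw [h]
  refine (Set.toFinite R).isClosed_biUnion fun r _ => ?_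
  rw [setOf_forall]
  refine isClosed_iInter fun p => ?_
  rw [setOf_forall]
  exact isClosed_iInter fun _ => isClosed_eq (continuous_apply _) (continuous_apply _)

lemma joined_body {m : ℕ} {y : Fin m × Bool → E} (hy : Conn y) (σ τ : Fin m × Bool) :
    JoinedIn (body y) (y σ) (y τ) := by
  have hmem : ∀ σ, y σ ∈ body y := by
    rintro ⟨k, β⟩
    refine mem_iUnion.mpr ⟨k, ?_⟩
    cases β
    · exact left_mem_segment ℝ _ _
    · exact right_mem_segment ℝ _ _
  have hseg : ∀ k, JoinedIn (body y) (y (k, false)) (y (k, true)) := fun k =>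
    JoinedIn.of_segment_subset (subset_iUnion (fun k => segment ℝ (y (k, false)) (y (k, true))) k)
  have h := hy σ τ
  induction h with
  | rel σ τ h =>
    rcases h with h | h
    · rw [h]; exact JoinedIn.refl (hmem τ)
    · obtain ⟨k, β⟩ := σ
      obtain ⟨l, β'⟩ := τ
      simp only at h
      subst h
      cases β <;> cases β'
      · exact JoinedIn.refl (hmem _)
      · exact hseg k
      · exact (hseg k).symm
      · exact JoinedIn.refl (hmem _)
  | refl σ => exact JoinedIn.refl (hmem _)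
  | symm σ τ _ ih => exact ih.symm
  | trans σ τ υ _ _ ih1 ih2 => exact ih1.trans ih2

lemma body_connected {m : ℕ} {y : Fin (m + 1) × Bool → E} (hy : Conn y) :
    IsConnected (body y) := by
  apply IsPathConnected.isConnected
  have h0 : y (0, false) ∈ body y := mem_iUnion.mpr ⟨0, left_mem_segment ℝ _ _⟩
  refine ⟨y (0, false), h0, ?_⟩
  intro z hz
  obtain ⟨k, hk⟩ := mem_iUnion.mp hz
  refine (joined_body hy (0, false) (k, false)).trans (JoinedIn.of_segment_subset ?_)
  exact ((convex_segment _ _).segment_subset (left_mem_segment ℝ _ _) hk).trans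
    (subset_iUnion (fun k => segment ℝ (y (k, false)) (y (k, true))) k)

lemma body_compact {m : ℕ} (y : Fin m × Bool → E) : IsCompact (body y) := by
  refine isCompact_iUnion fun k => ?_
  rw [segment_eq_image_lineMap]
  exact isCompact_Icc.image AffineMap.lineMap_continuous

lemma body_ball {m : ℕ} {y : Fin m × Bool → E} (hy : ∀ σ, ‖y σ‖ ≤ 1) :
    body y ⊆ Metric.closedBall 0 1 :=
  iUnion_subset fun _ => (convex_closedBall 0 1).segment_subset
    (by simpa using hy _) (by simpa using hy _)

variable [MeasurableSpace E] [BorelSpace E]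

lemma body_len {m : ℕ} (y : Fin m × Bool → E) : μH[1] (body y) ≤ ENNReal.ofReal (len y) := by
  unfold body len
  refine (measure_iUnion_le _).trans ?_
  rw [tsum_fintype, ENNReal.ofReal_sum_of_nonneg fun _ _ => dist_nonneg]
  refine Finset.sum_le_sum fun k _ => ?_
  rw [hausdorffMeasure_segment, edist_dist]

lemma body_sphere {m : ℕ} {y : Fin m × Bool → E} (hy : ∀ σ, ‖y σ‖ ≤ 1) :
    μH[1] (body y ∩ Metric.sphere 0 1) = 0 := by
  refine measure_mono_null (t := ⋃ σ, {y σ}) ?_ (measure_iUnion_null fun σ => noAtom _)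
  rintro z ⟨hz, hz1⟩
  obtain ⟨k, hk⟩ := mem_iUnion.mp hz
  rw [mem_iUnion]
  by_contra hcon
  push Not at hcon
  have h1 : z ≠ y (k, false) := hcon (k, false)
  have h2 : z ≠ y (k, true) := hcon (k, true)
  have h3 : z ∈ openSegment ℝ (y (k, false)) (y (k, true)) :=
    mem_openSegment_of_ne_left_right h1.symm h2.symm hk
  have h4 : y (k, false) ≠ y (k, true) := by
    intro h
    rw [h, openSegment_same] at h3
    exact h2 h3
  have h5 := (strictConvex_closedBall ℝ (0 : E) 1).openSegment_subset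
    (by simpa using hy (k, false)) (by simpa using hy (k, true)) h4 h3
  rw [interior_closedBall (0 : E) one_ne_zero] at h5
  have h6 : ‖z‖ < 1 := by simpa using h5
  have h7 : ‖z‖ = 1 := by simpa using hz1
  linarith

variable [FiniteDimensional ℝ E]

/-- A closed connected set of finite length is compact. -/
lemma compact_of_finite {T : Set E} (hTc : IsClosed T) (hT : IsPreconnected T)
    (hfin : μH[1] T ≠ ⊤) : IsCompact T := by
  haveI : ProperSpace E := FiniteDimensional.proper ℝ E
  refine Metric.isCompact_of_isClosed_isBounded hTc ?_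
  refine Metric.isBounded_iff.mpr ⟨(μH[1] T).toReal, fun x hx y hy => ?_⟩
  have h := H_conn hT hx hy
  have h2 := ENNReal.toReal_mono hfin h
  rwa [ENNReal.toReal_ofReal dist_nonneg] at h2

/-- A shortest connected set through finitely many points of the unit ball exists, and it can be
taken to be a finite union of segments in the unit ball. -/
theorem exists_min {n : ℕ} (t : Fin n → E) (ht : ∀ i, ‖t i‖ ≤ 1) :
    ∃ y : Fin (2 * n + 1) × Bool → E, Conn y ∧ (∀ i, ∃ σ, y σ = t i) ∧ (∀ σ, ‖y σ‖ ≤ 1) ∧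
      ∀ T : Set E, IsClosed T → IsConnected T → range t ⊆ T →
        ENNReal.ofReal (len y) ≤ μH[1] T := by
  classical
  haveI : ProperSpace E := FiniteDimensional.proper ℝ E
  let Y : Set (Fin (2 * n + 1) × Bool → E) :=
    ({y | Conn y} ∩ ⋂ i, ⋃ σ, {y | y σ = t i}) ∩ Set.pi univ fun _ => Metric.closedBall 0 1
  have hYc : IsCompact Y := by
    refine IsCompact.inter_left (isCompact_univ_pi fun _ => isCompact_closedBall 0 1) ?_
    refine isClosed_conn.inter (isClosed_iInter fun i => isClosed_iUnion_of_finite fun σ => ?_)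
    exact isClosed_eq (continuous_apply _) continuous_const
  have hYne : Y.Nonempty := by
    refine ⟨fun σ => if h : σ.2 = true ∧ (σ.1 : ℕ) < n then t ⟨σ.1, h.2⟩ else 0, ⟨?_, ?_⟩, ?_⟩
    · intro σ τ
      have hz : ∀ σ : Fin (2 * n + 1) × Bool, Relation.EqvGen (Link fun σ : Fin (2 * n + 1) × Bool =>
          if h : σ.2 = true ∧ (σ.1 : ℕ) < n then t ⟨σ.1, h.2⟩ else (0 : E)) σ (σ.1, false) :=
        fun σ => Relation.EqvGen.rel _ _ (Or.inr rfl)
      refine ((hz σ).trans _ _ _ (Relation.EqvGen.rel _ (τ.1, false) (Or.inl ?_))).trans _ _ _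
        ((hz τ).symm _ _)
      simp
    · refine mem_iInter.mpr fun i => mem_iUnion.mpr ⟨(⟨i, by omega⟩, true), ?_⟩
      simp
    · intro σ _
      simp only
      split_ifs with h
      · simpa using ht _
      · simp
  have hcont : Continuous (fun y : Fin (2 * n + 1) × Bool → E => len y) := by
    unfold len
    exact continuous_finset_sum _ fun k _ => (continuous_apply _).dist (continuous_apply _)
  obtain ⟨y, hyY, hymin⟩ := hYc.exists_isMinOn hYne hcont.continuousOn
  obtain ⟨⟨hy1, hy2⟩, hy3⟩ := hyY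
  refine ⟨y, hy1, fun i => by simpa using mem_iInter.mp hy2 i,
    fun σ => by simpa using hy3 σ (mem_univ σ), ?_⟩
  intro T hTcl hT htT
  by_cases hfin : μH[1] T = ⊤
  · rw [hfin]; exact le_top
  obtain ⟨x0, hx0⟩ := hT.nonempty
  have hTc := compact_of_finite hTcl hT.isPreconnected hfin
  obtain ⟨z, hz1, hz2, hz3⟩ := exists_net hTc hT.isPreconnected hfin t
    (fun i => htT (mem_range_self i)) x0 hx0
  have hzY : (fun σ => proj (z σ)) ∈ Y := by
    refine ⟨⟨?_, ?_⟩, ?_⟩
    · intro σ τ
      refine Relation.EqvGen.mono ?_ _ _ (hz1 σ τ)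
      rintro σ τ (h | h)
      · left; show proj (z σ) = proj (z τ); rw [h]
      · exact Or.inr h
    · refine mem_iInter.mpr fun i => ?_
      obtain ⟨σ, hσ⟩ := hz2 i
      refine mem_iUnion.mpr ⟨σ, ?_⟩
      show proj (z σ) = t i
      rw [hσ, proj_of_le (ht i)]
    · intro σ _
      simpa using norm_proj_le (z σ)
  have h1 : len y ≤ len fun σ => proj (z σ) := hymin hzY
  have h2 : len (fun σ => proj (z σ)) ≤ len z := Finset.sum_le_sum fun k _ => proj_lip _ _
  have h3 : len y ≤ (μH[1] T).toReal := h1.trans (h2.trans hz3)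
  calc ENNReal.ofReal (len y) ≤ ENNReal.ofReal (μH[1] T).toReal := ENNReal.ofReal_le_ofReal h3
    _ = μH[1] T := ENNReal.ofReal_toReal hfin

/-- `S` is a Steiner tree for the set `A` of terminals. -/
def IsSteinerTree (A S : Set E) : Prop :=
  IsClosed S ∧ IsConnected S ∧ A ⊆ S ∧ μH[1] S < ⊤ ∧
    ∀ T : Set E, IsClosed T → IsConnected T → A ⊆ T → μH[1] S ≤ μH[1] T

/-- Steiner trees exist for finitely many terminals in the unit ball; some of them meet the unit
sphere in a null set only. -/
theorem exists_steiner {n : ℕ} (t : Fin n → E) (ht : ∀ i, ‖t i‖ ≤ 1) :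
    ∃ S : Set E, IsSteinerTree (range t) S ∧ S ⊆ Metric.closedBall 0 1 ∧
      μH[1] (S ∩ Metric.ball 0 1) = μH[1] S := by
  obtain ⟨y, h1, h2, h3, h4⟩ := exists_min t ht
  have hball := body_ball h3
  refine ⟨body y, ⟨(body_compact y).isClosed, body_connected h1, ?_,
    lt_of_le_of_lt (body_len y) ENNReal.ofReal_lt_top,
    fun T hT1 hT2 hT3 => (body_len y).trans (h4 T hT1 hT2 hT3)⟩, hball, ?_⟩
  · rintro _ ⟨i, rfl⟩
    obtain ⟨⟨k, β⟩, hσ⟩ := h2 i
    rw [← hσ]
    refine mem_iUnion.mpr ⟨k, ?_⟩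
    cases β
    · exact left_mem_segment ℝ _ _
    · exact right_mem_segment ℝ _ _
  · apply le_antisymm (measure_mono inter_subset_left)
    have hsub : body y ⊆ (body y ∩ Metric.ball 0 1) ∪ (body y ∩ Metric.sphere 0 1) := by
      intro z hz
      have : z ∈ Metric.ball (0 : E) 1 ∪ Metric.sphere 0 1 := by
        rw [Metric.ball_union_sphere]; exact hball hz
      rcases this with h | h
      · exact Or.inl ⟨hz, h⟩
      · exact Or.inr ⟨hz, h⟩
    calc μH[1] (body y) ≤ _ := measure_mono hsub
      _ ≤ _ := measure_union_le _ _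
      _ = _ := by rw [body_sphere h3, add_zero]

end Pool.Agent.R154.Steiner
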