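import Pool.Agent.R154.Steiner.Path

set_option autoImplicit false

open scoped MeasureTheory ENNReal Topology
open MeasureTheory Set Filter

namespace Pool.Agent.R154.Steiner

variable {E : Type*} [MetricSpace E]

/-- Two endpoint slots are linked if they are at the same point or belong to the same edge. -/
def Link {κ : Type} (pos : κ × Bool → E) (σ τ : κ × Bool) : Prop := pos σ = pos τ ∨ σ.1 = τ.1

/-- The network with the edges `(pos (k, false), pos (k, true))` is connected. -/
def Conn {κ : Type} (pos : κ × Bool → E) : Prop :=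
  ∀ σ τ : κ × Bool, Relation.EqvGen (Link pos) σ τ

lemma IsArc.sub {T : Set E} {x y : E} {γ : ℝ → E} {a b c d : ℝ} (h : IsArc T x y γ a b)
    (hac : a ≤ c) (hcd : c ≤ d) (hdb : d ≤ b) : IsArc T (γ c) (γ d) γ c d :=
  ⟨hcd, h.cont.mono (Icc_subset_Icc hac hdb), h.inj.mono (Icc_subset_Icc hac hdb),
    fun t ht => h.maps t ⟨hac.trans ht.1, ht.2.trans hdb⟩, rfl, rfl⟩

variable [MeasurableSpace E] [BorelSpace E]

/-- A system of arcs of `T` that meet in null sets only. -/
structure ArcSys (T : Set E) (κ : Type) where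
  γ : κ → ℝ → E
  a : κ → ℝ
  b : κ → ℝ
  arc : ∀ i, IsArc T (γ i (a i)) (γ i (b i)) (γ i) (a i) (b i)
  null : ∀ i j, i ≠ j → μH[1] (γ i '' Icc (a i) (b i) ∩ γ j '' Icc (a j) (b j)) = 0

def ArcSys.pos {T : Set E} {κ : Type} (S : ArcSys T κ) (σ : κ × Bool) : E :=
  if σ.2 then S.γ σ.1 (S.b σ.1) else S.γ σ.1 (S.a σ.1)

lemma step {T : Set E} (hTc : IsCompact T) (hT : IsPreconnected T) (hfin : μH[1] T ≠ ⊤)
    {κ : Type} [Fintype κ] [Nonempty κ] (S : ArcSys T κ) (hS : Conn S.pos) {p : E} (hp : p ∈ T) :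
    ∃ S' : ArcSys T (Option (Option κ)), Conn S'.pos ∧ (∀ σ, ∃ τ, S'.pos τ = S.pos σ) ∧
      ∃ τ, S'.pos τ = p := by
  classical
  obtain ⟨i0⟩ := ‹Nonempty κ›
  set K : Set E := ⋃ i, S.γ i '' Icc (S.a i) (S.b i) with hK
  have hKc : IsCompact K := isCompact_iUnion fun i => isCompact_Icc.image_of_continuousOn (S.arc i).cont
  have hqT : S.γ i0 (S.a i0) ∈ T := (S.arc i0).maps _ ⟨le_rfl, (S.arc i0).le⟩
  obtain ⟨γ0, a0, b0, h0⟩ := exists_arc hTc hT hp hqT hfin
  set Z : Set ℝ := Icc a0 b0 ∩ γ0 ⁻¹' K with hZ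
  have hZc : IsCompact Z := by
    have : IsClosed Z := h0.cont.preimage_isClosed_of_isClosed isClosed_Icc hKc.isClosed
    exact isCompact_Icc.of_isClosed_subset this inter_subset_left
  have hZne : Z.Nonempty := by
    refine ⟨b0, ⟨h0.le, le_rfl⟩, ?_⟩
    show γ0 b0 ∈ K
    rw [h0.right]
    exact mem_iUnion.mpr ⟨i0, _, ⟨le_rfl, (S.arc i0).le⟩, rfl⟩
  obtain ⟨c, hcZ, hcmin⟩ := hZc.exists_isLeast hZne
  obtain ⟨⟨hac, hcb⟩, hcK⟩ := hcZ
  obtain ⟨i1, s1, ⟨hs1, hs2⟩, hs3⟩ := mem_iUnion.mp (show γ0 c ∈ K from hcK)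
  -- the new system
  let γ' : Option (Option κ) → ℝ → E
    | none => γ0
    | some none => S.γ i1
    | some (some i) => S.γ i
  let a' : Option (Option κ) → ℝ
    | none => a0
    | some none => s1
    | some (some i) => S.a i
  let b' : Option (Option κ) → ℝ
    | none => c
    | some none => S.b i1
    | some (some i) => if i = i1 then s1 else S.b i
  have harc : ∀ i, IsArc T (γ' i (a' i)) (γ' i (b' i)) (γ' i) (a' i) (b' i) := by
    rintro (_ | _ | i)
    · exact h0.sub le_rfl hac hcb
    · exact (S.arc i1).sub hs1 hs2 le_rfl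
    · show IsArc T (S.γ i (S.a i)) (S.γ i (if i = i1 then s1 else S.b i)) (S.γ i) (S.a i)
        (if i = i1 then s1 else S.b i)
      by_cases h : i = i1
      · subst h
        simp only [if_true]
        exact (S.arc i).sub le_rfl hs1 hs2
      · simp only [h, if_false]
        exact S.arc i
  let I : Option (Option κ) → Set E := fun i => γ' i '' Icc (a' i) (b' i)
  have hIsub : ∀ i, I (some (some i)) ⊆ S.γ i '' Icc (S.a i) (S.b i) := by
    intro i
    apply image_mono
    apply Icc_subset_Icc le_rfl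
    show (if i = i1 then s1 else S.b i) ≤ S.b i
    by_cases h : i = i1
    · subst h; simp [hs2]
    · simp [h]
  have hIsub' : I (some none) ⊆ S.γ i1 '' Icc (S.a i1) (S.b i1) :=
    image_mono (Icc_subset_Icc hs1 le_rfl)
  have hIK : ∀ x, I (some x) ⊆ K := by
    rintro (_ | i)
    · exact hIsub'.trans (subset_iUnion (fun i => S.γ i '' Icc (S.a i) (S.b i)) i1)
    · exact (hIsub i).trans (subset_iUnion (fun i => S.γ i '' Icc (S.a i) (S.b i)) i)
  have n1 : ∀ x, μH[1] (I none ∩ I (some x)) = 0 := by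
    intro x
    refine measure_mono_null ?_ (noAtom (γ0 c))
    rintro z ⟨⟨t, ht, rfl⟩, hz2⟩
    have hzK := hIK x hz2
    have : c ≤ t := hcmin ⟨⟨ht.1, ht.2.trans hcb⟩, hzK⟩
    have : t = c := le_antisymm ht.2 this
    rw [this]; rfl
  have n2 : ∀ i, μH[1] (I (some none) ∩ I (some (some i))) = 0 := by
    intro i
    by_cases h : i = i1
    · subst h
      refine measure_mono_null ?_ (noAtom (S.γ i s1))
      rintro z ⟨⟨t, ht, rfl⟩, ⟨u, hu, hut⟩⟩
      have hu' : u ∈ Icc (S.a i) s1 := by
        have : (b' (some (some i))) = s1 := by show (if i = i then s1 else S.b i) = s1; simp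
        rw [this] at hu
        exact hu
      have hut' : S.γ i u = S.γ i t := hut
      have hteq : u = t := (S.arc i).inj ⟨hu'.1, hu'.2.trans hs2⟩ ⟨hs1.trans ht.1, ht.2⟩ hut'
      have : t = s1 := le_antisymm (hteq ▸ hu'.2) ht.1
      show S.γ i t ∈ ({S.γ i s1} : Set E)
      rw [this]; rfl
    · refine measure_mono_null (inter_subset_inter hIsub' (hIsub i)) (S.null i1 i (Ne.symm h))
  have n3 : ∀ i j, i ≠ j → μH[1] (I (some (some i)) ∩ I (some (some j))) = 0 := fun i j hij =>
    measure_mono_null (inter_subset_inter (hIsub i) (hIsub j)) (S.null i j hij)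
  have hnull : ∀ x y, x ≠ y → μH[1] (I x ∩ I y) = 0 := by
    rintro (_ | _ | i) (_ | _ | j) hxy
    · exact absurd rfl hxy
    · exact n1 none
    · exact n1 (some j)
    · rw [inter_comm]; exact n1 none
    · exact absurd rfl hxy
    · exact n2 j
    · rw [inter_comm]; exact n1 (some i)
    · rw [inter_comm]; exact n2 i
    · exact n3 i j (fun h => hxy (by rw [h]))
  let S' : ArcSys T (Option (Option κ)) := ⟨γ', a', b', harc, hnull⟩
  let φ : κ × Bool → Option (Option κ) × Bool := fun σ =>
    if σ.2 = true ∧ σ.1 = i1 then (some none, true) else (some (some σ.1), σ.2)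
  have hφ : ∀ σ, S'.pos (φ σ) = S.pos σ := by
    rintro ⟨i, β⟩
    by_cases h : β = true ∧ i = i1
    · obtain ⟨rfl, rfl⟩ := h
      simp only [φ, and_self, if_true]
      rfl
    · simp only [φ, h, if_false]
      cases β
      · rfl
      · have hi : i ≠ i1 := fun hi => h ⟨rfl, hi⟩
        show S.γ i (if i = i1 then s1 else S.b i) = S.γ i (S.b i)
        simp [hi]
  -- some links
  have l1 : Relation.EqvGen (Link S'.pos) (none, false) (none, true) :=
    Relation.EqvGen.rel _ _ (Or.inr rfl)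
  have l2 : Relation.EqvGen (Link S'.pos) (none, true) (some none, false) := by
    apply Relation.EqvGen.rel
    left
    show γ0 c = S.γ i1 s1
    exact hs3.symm
  have l3 : Relation.EqvGen (Link S'.pos) (some none, false) (some none, true) :=
    Relation.EqvGen.rel _ _ (Or.inr rfl)
  have l4 : Relation.EqvGen (Link S'.pos) (some (some i1), true) (some none, false) := by
    apply Relation.EqvGen.rel
    left
    show S.γ i1 (if i1 = i1 then s1 else S.b i1) = S.γ i1 s1
    simp
  have l5 : ∀ i, Relation.EqvGen (Link S'.pos) (some (some i), false) (some (some i), true) :=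
    fun i => Relation.EqvGen.rel _ _ (Or.inr rfl)
  have hft : ∀ i, Relation.EqvGen (Link S'.pos) (φ (i, false)) (φ (i, true)) := by
    intro i
    have e1 : φ (i, false) = (some (some i), false) := by simp [φ]
    rw [e1]
    by_cases h : i = i1
    · subst h
      have e2 : φ (i, true) = (some none, true) := by simp [φ]
      rw [e2]
      exact ((l5 i).trans _ _ _ l4).trans _ _ _ l3
    · have e2 : φ (i, true) = (some (some i), true) := by simp [φ, h]
      rw [e2]
      exact l5 i
  have hedge : ∀ i β β', Relation.EqvGen (Link S'.pos) (φ (i, β)) (φ (i, β')) := by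
    intro i β β'
    cases β <;> cases β'
    · exact Relation.EqvGen.refl _
    · exact hft i
    · exact (hft i).symm _ _
    · exact Relation.EqvGen.refl _
  have hmap : ∀ σ τ, Relation.EqvGen (Link S.pos) σ τ →
      Relation.EqvGen (Link S'.pos) (φ σ) (φ τ) := by
    intro σ τ h
    induction h with
    | rel σ τ h =>
      rcases h with h | h
      · apply Relation.EqvGen.rel
        left
        rw [hφ, hφ, h]
      · obtain ⟨i, β⟩ := σ
        obtain ⟨j, β'⟩ := τ
        simp only at h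
        subst h
        exact hedge i β β'
    | refl σ => exact Relation.EqvGen.refl _
    | symm σ τ _ ih => exact ih.symm _ _
    | trans σ τ υ _ _ ih1 ih2 => exact ih1.trans _ _ _ ih2
  have hreach : ∀ τ, ∃ σ, Relation.EqvGen (Link S'.pos) τ (φ σ) := by
    have r1 : ∃ σ, Relation.EqvGen (Link S'.pos) (some none, true) (φ σ) := by
      refine ⟨(i1, true), ?_⟩
      have : φ (i1, true) = (some none, true) := by simp [φ]
      rw [this]
      exact Relation.EqvGen.refl _
    have r2 : ∀ i, ∃ σ, Relation.EqvGen (Link S'.pos) (some (some i), false) (φ σ) := by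
      intro i
      refine ⟨(i, false), ?_⟩
      have : φ (i, false) = (some (some i), false) := by simp [φ]
      rw [this]
      exact Relation.EqvGen.refl _
    rintro ⟨_ | _ | i, β⟩
    · obtain ⟨σ, hσ⟩ := r1
      have h : Relation.EqvGen (Link S'.pos) (none, true) (φ σ) :=
        (l2.trans _ _ _ l3).trans _ _ _ hσ
      cases β
      · exact ⟨σ, l1.trans _ _ _ h⟩
      · exact ⟨σ, h⟩
    · obtain ⟨σ, hσ⟩ := r1
      cases β
      · exact ⟨σ, l3.trans _ _ _ hσ⟩
      · exact ⟨σ, hσ⟩
    · obtain ⟨σ, hσ⟩ := r2 i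
      cases β
      · exact ⟨σ, hσ⟩
      · exact ⟨σ, ((l5 i).symm _ _).trans _ _ _ hσ⟩
  refine ⟨S', ?_, fun σ => ⟨φ σ, hφ σ⟩, ⟨(none, false), h0.left⟩⟩
  intro σ τ
  obtain ⟨σ', h1⟩ := hreach σ
  obtain ⟨τ', h2⟩ := hreach τ
  exact (h1.trans _ _ _ (hmap _ _ (hS σ' τ'))).trans _ _ _ (h2.symm _ _)

lemma exists_sys {T : Set E} (hTc : IsCompact T) (hT : IsPreconnected T) (hfin : μH[1] T ≠ ⊤)
    {ι : Type*} (F : Finset ι) (t : ι → E) (ht : ∀ i, t i ∈ T) (x0 : E) (hx0 : x0 ∈ T) :
    ∃ (κ : Type) (_ : Fintype κ) (S : ArcSys T κ), Fintype.card κ = 2 * F.card + 1 ∧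
      Conn S.pos ∧ ∀ i ∈ F, ∃ σ, S.pos σ = t i := by
  classical
  induction F using Finset.induction_on with
  | empty =>
    refine ⟨Unit, inferInstance, ⟨fun _ _ => x0, fun _ => 0, fun _ => 0, ?_, ?_⟩, by simp, ?_, ?_⟩
    · intro i
      refine ⟨le_rfl, continuousOn_const, ?_, fun _ _ => hx0, rfl, rfl⟩
      intro s hs u hu _
      simp only [Icc_self, mem_singleton_iff] at hs hu
      rw [hs, hu]
    · intro i j hij
      exact absurd (Subsingleton.elim i j) hij
    · intro σ τ
      exact Relation.EqvGen.rel _ _ (Or.inr rfl)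
    · intro i hi
      simp at hi
  | insert j F hj ih =>
    obtain ⟨κ, hκ, S, hcard, hconn, hpos⟩ := ih
    have hne : Nonempty κ := by
      rw [← Fintype.card_pos_iff, hcard]; omega
    obtain ⟨S', hconn', hold, hnew⟩ := step hTc hT hfin S hconn (ht j)
    refine ⟨Option (Option κ), inferInstance, S', ?_, hconn', ?_⟩
    · rw [Fintype.card_option, Fintype.card_option, hcard, Finset.card_insert_of_notMem hj]
      ring
    · intro i hi
      rw [Finset.mem_insert] at hi
      rcases hi with rfl | hi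
      · exact hnew
      · obtain ⟨σ, hσ⟩ := hpos i hi
        obtain ⟨τ, hτ⟩ := hold σ
        exact ⟨τ, hτ.trans hσ⟩

lemma ArcSys.sum_le {T : Set E} (hfin : μH[1] T ≠ ⊤) {κ : Type} [Fintype κ] (S : ArcSys T κ) :
    ∑ k, dist (S.pos (k, false)) (S.pos (k, true)) ≤ (μH[1] T).toReal := by
  classical
  let I : κ → Set E := fun i => S.γ i '' Icc (S.a i) (S.b i)
  have hIc : ∀ i, IsCompact (I i) := fun i => isCompact_Icc.image_of_continuousOn (S.arc i).cont
  have h1 : ∀ i, ENNReal.ofReal (dist (S.pos (i, false)) (S.pos (i, true))) ≤ μH[1] (I i) := by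
    intro i
    refine H_conn (isPreconnected_Icc.image _ (S.arc i).cont) ?_ ?_
    · exact ⟨S.a i, ⟨le_rfl, (S.arc i).le⟩, rfl⟩
    · exact ⟨S.b i, ⟨(S.arc i).le, le_rfl⟩, rfl⟩
  have h2 : ∑ i, μH[1] (I i) ≤ μH[1] T := by
    have := measure_iUnion₀ (μ := (μH[1] : Measure E)) (f := I)
      (fun i j hij => S.null i j hij) (fun i => (hIc i).measurableSet.nullMeasurableSet)
    rw [tsum_fintype] at this
    rw [← this]
    apply measure_mono
    apply iUnion_subset
    rintro i _ ⟨s, hs, rfl⟩
    exact (S.arc i).maps s hs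
  have h3 : ENNReal.ofReal (∑ k, dist (S.pos (k, false)) (S.pos (k, true))) ≤ μH[1] T := by
    rw [ENNReal.ofReal_sum_of_nonneg (fun _ _ => dist_nonneg)]
    exact (Finset.sum_le_sum fun i _ => h1 i).trans h2
  have h4 := ENNReal.toReal_mono hfin h3
  rwa [ENNReal.toReal_ofReal (Finset.sum_nonneg fun _ _ => dist_nonneg)] at h4

/-- Every compact connected set of finite length through the points `t i` is at least as long
as a connected network of `2 n + 1` segments through these points. -/
theorem exists_net {T : Set E} (hTc : IsCompact T) (hT : IsPreconnected T) (hfin : μH[1] T ≠ ⊤)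
    {n : ℕ} (t : Fin n → E) (ht : ∀ i, t i ∈ T) (x0 : E) (hx0 : x0 ∈ T) :
    ∃ y : Fin (2 * n + 1) × Bool → E, Conn y ∧ (∀ i, ∃ σ, y σ = t i) ∧
      ∑ k, dist (y (k, false)) (y (k, true)) ≤ (μH[1] T).toReal := by
  obtain ⟨κ, hκ, S, hcard, hconn, hpos⟩ := exists_sys hTc hT hfin Finset.univ t ht x0 hx0
  rw [Finset.card_univ, Fintype.card_fin] at hcard
  let e : Fin (2 * n + 1) ≃ κ := (Fintype.equivFinOfCardEq hcard).symm
  refine ⟨fun σ => S.pos (e σ.1, σ.2), ?_, ?_, ?_⟩
  · intro σ τ
    have key : ∀ σ τ : κ × Bool, Relation.EqvGen (Link S.pos) σ τ →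
        Relation.EqvGen (Link fun σ : Fin (2 * n + 1) × Bool => S.pos (e σ.1, σ.2))
          (e.symm σ.1, σ.2) (e.symm τ.1, τ.2) := by
      intro σ τ h
      induction h with
      | rel σ τ h =>
        apply Relation.EqvGen.rel
        rcases h with h | h
        · left; simpa using h
        · right; simp [h]
      | refl σ => exact Relation.EqvGen.refl _
      | symm σ τ _ ih => exact ih.symm _ _
      | trans σ τ υ _ _ ih1 ih2 => exact ih1.trans _ _ _ ih2
    have := key (e σ.1, σ.2) (e τ.1, τ.2) (hconn _ _)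
    simpa using this
  · intro i
    obtain ⟨σ, hσ⟩ := hpos i (Finset.mem_univ i)
    exact ⟨(e.symm σ.1, σ.2), by simpa using hσ⟩
  · rw [Equiv.sum_comp e (fun k => dist (S.pos (k, false)) (S.pos (k, true)))]
    exact S.sum_le hfin

end Pool.Agent.R154.Steiner
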