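import Mathlib

set_option autoImplicit false

open scoped MeasureTheory ENNReal Topology
open MeasureTheory Set Filter

namespace Pool.Agent.R154.Steiner

variable {E : Type*} [MetricSpace E] [MeasurableSpace E] [BorelSpace E]

lemma H_lip {f : E → ℝ} (hf : LipschitzWith 1 f) (A : Set E) :
    volume (f '' A) ≤ μH[1] A := by
  have h := hf.hausdorffMeasure_image_le (d := 1) zero_le_one A
  rw [hausdorffMeasure_real] at h
  simpa using h

lemma H_slab {f : E → ℝ} (hf : LipschitzWith 1 f) {K : Set E} (hK : IsPreconnected K) {x y : E}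
    (hx : x ∈ K) (hy : y ∈ K) {a b : ℝ} (ha : f x ≤ a) (hb : b ≤ f y) :
    ENNReal.ofReal (b - a) ≤ μH[1] (K ∩ f ⁻¹' Ioo a b) := by
  have h1 : Ioo a b ⊆ f '' (K ∩ f ⁻¹' Ioo a b) := by
    intro t ht
    obtain ⟨z, hz, rfl⟩ := hK.intermediate_value hx hy hf.continuous.continuousOn
      ⟨ha.trans ht.1.le, ht.2.le.trans hb⟩
    exact ⟨z, ⟨hz, ht⟩, rfl⟩
  calc ENNReal.ofReal (b - a) = volume (Ioo a b) := by rw [Real.volume_Ioo]
    _ ≤ volume (f '' (K ∩ f ⁻¹' Ioo a b)) := measure_mono h1
    _ ≤ _ := H_lip hf _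

omit [MeasurableSpace E] [BorelSpace E] in
lemma lip_dist (x : E) : LipschitzWith 1 (fun y => dist x y) := LipschitzWith.dist_right x

lemma H_conn {K : Set E} (hK : IsPreconnected K) {x y : E} (hx : x ∈ K) (hy : y ∈ K) :
    ENNReal.ofReal (dist x y) ≤ μH[1] K := by
  have h := H_slab (lip_dist x) hK hx hy (a := 0) (b := dist x y) (by simp) le_rfl
  rw [sub_zero] at h
  exact h.trans (measure_mono inter_subset_left)

lemma H_ball {K : Set E} (hK : IsPreconnected K) {x y : E} (hx : x ∈ K) (hy : y ∈ K) {r : ℝ}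
    (hr : r ≤ dist x y) : ENNReal.ofReal r ≤ μH[1] (K ∩ Metric.ball x r) := by
  have h := H_slab (lip_dist x) hK hx hy (a := 0) (b := r) (by simp) hr
  rw [sub_zero] at h
  refine h.trans (measure_mono ?_)
  rintro z ⟨hz, hz'⟩
  refine ⟨hz, ?_⟩
  rw [Metric.mem_ball, dist_comm]
  exact hz'.2

lemma noAtom (x : E) : μH[1] ({x} : Set E) = 0 := by
  have := Measure.nullSingletonClass_hausdorff (X := E) (d := 1) one_pos
  exact measure_singleton x

/-- `z 0, …, z N` is an `ε`-chain in `T` from `x` to `y`. -/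
def Chain (T : Set E) (ε : ℝ) (x y : E) (N : ℕ) (z : ℕ → E) : Prop :=
  z 0 = x ∧ z N = y ∧ (∀ k ≤ N, z k ∈ T) ∧ ∀ k < N, dist (z k) (z (k + 1)) < ε

omit [MeasurableSpace E] [BorelSpace E] in
lemma exists_chain {T : Set E} (hT : IsPreconnected T) {ε : ℝ} (hε : 0 < ε) {x y : E}
    (hx : x ∈ T) (hy : y ∈ T) : ∃ N z, Chain T ε x y N z := by
  have key : ∀ x ∈ T, ∀ y ∈ T, dist x y < ε → ∃ N z, Chain T ε x y N z := by
    intro x hx y hy hxy
    refine ⟨1, fun k => if k = 0 then x else y, by simp, by simp, ?_, ?_⟩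
    · intro k _
      by_cases hk : k = 0 <;> simp [hk, hx, hy]
    · intro k hk
      have : k = 0 := by omega
      subst this
      simpa using hxy
  refine hT.induction₂' (fun x y => ∃ N z, Chain T ε x y N z) ?_ ?_ hx hy
  · intro x hx
    filter_upwards [self_mem_nhdsWithin, mem_nhdsWithin_of_mem_nhds (Metric.ball_mem_nhds x hε)]
      with y hy hy'
    rw [Metric.mem_ball] at hy'
    exact ⟨key x hx y hy (by rw [dist_comm]; exact hy'), key y hy x hx hy'⟩
  · rintro x y z hx hy hz ⟨N, u, h1, h2, h3, h4⟩ ⟨M, v, g1, g2, g3, g4⟩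
    refine ⟨N + M, fun k => if k ≤ N then u k else v (k - N), by simp [h1], ?_, ?_, ?_⟩
    · by_cases hM : M = 0
      · subst hM
        simp [h2, ← g2, g1]
      · have : ¬ (N + M ≤ N) := by omega
        simp [this, g2]
    · intro k hk
      by_cases hkN : k ≤ N
      · simp [hkN, h3 k hkN]
      · simp only [hkN, if_false]
        exact g3 _ (by omega)
    · intro k hk
      by_cases hkN : k < N
      · have h5 : k ≤ N := hkN.le
        have h6 : k + 1 ≤ N := hkN
        simp only [h5, h6, if_true]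
        exact h4 k hkN
      · rcases eq_or_lt_of_le (not_lt.mp hkN) with h5 | h5
        · subst h5
          have h6 : ¬ (N + 1 ≤ N) := by omega
          simp only [le_refl, if_true, h6, if_false, Nat.add_sub_cancel_left]
          have := g4 0 (by omega)
          rw [h2, ← g1]
          exact this
        · have h6 : ¬ (k ≤ N) := by omega
          have h7 : ¬ (k + 1 ≤ N) := by omega
          simp only [h6, h7, if_false]
          have h8 : k + 1 - N = (k - N) + 1 := by omega
          rw [h8]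
          exact g4 _ (by omega)

omit [MeasurableSpace E] [BorelSpace E] in
lemma min_chain {T : Set E} (hT : IsPreconnected T) {ε : ℝ} (hε : 0 < ε) {x y : E}
    (hx : x ∈ T) (hy : y ∈ T) : ∃ N z, Chain T ε x y N z ∧
      ∀ i j, i + 2 ≤ j → j ≤ N → ε ≤ dist (z i) (z j) := by
  classical
  have hex : ∃ N, ∃ z, Chain T ε x y N z := exists_chain hT hε hx hy
  obtain ⟨z, hz⟩ := Nat.find_spec hex
  set N := Nat.find hex with hN
  refine ⟨N, z, hz, ?_⟩
  intro i j hij hjN
  by_contra hcon
  push Not at hcon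
  obtain ⟨h1, h2, h3, h4⟩ := hz
  have hlt : N - (j - i - 1) < N := by omega
  refine Nat.find_min hex hlt ⟨fun k => if k ≤ i then z k else z (k + (j - i - 1)), ?_, ?_, ?_, ?_⟩
  · simp [h1]
  · have h5 : ¬ (N - (j - i - 1) ≤ i) := by omega
    have h6 : N - (j - i - 1) + (j - i - 1) = N := by omega
    simp only [h5, if_false, h6, h2]
  · intro k hk
    by_cases hki : k ≤ i
    · simp only [hki, if_true]
      exact h3 k (by omega)
    · simp only [hki, if_false]
      exact h3 _ (by omega)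
  · intro k hk
    by_cases hki : k + 1 ≤ i
    · have h5 : k ≤ i := by omega
      simp only [h5, hki, if_true]
      exact h4 k (by omega)
    · by_cases hki' : k ≤ i
      · have h5 : k = i := by omega
        subst h5
        simp only [hki, le_refl, if_true, if_false]
        have h6 : k + 1 + (j - k - 1) = j := by omega
        rw [h6]
        exact hcon
      · simp only [hki, hki', if_false]
        have h6 : k + 1 + (j - i - 1) = (k + (j - i - 1)) + 1 := by omega
        rw [h6]
        exact h4 _ (by omega)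

lemma chain_len {T : Set E} (hTc : IsClosed T) (hT : IsPreconnected T) {ε : ℝ} (hε : 0 < ε)
    {x y : E} (hx : x ∈ T) (hy : y ∈ T) (hxy : ε ≤ dist x y) (hfin : μH[1] T ≠ ⊤) :
    ∃ N z, Chain T ε x y N z ∧ N * ε ≤ 4 * (μH[1] T).toReal := by
  obtain ⟨N, z, hz, hsep⟩ := min_chain hT hε hx hy
  refine ⟨N, z, hz, ?_⟩
  obtain ⟨h1, h2, h3, h4⟩ := hz
  have hball : ∀ k ∈ Finset.range (N / 2 + 1),
      ENNReal.ofReal (ε / 2) ≤ μH[1] (T ∩ Metric.ball (z (2 * k)) (ε / 2)) := by
    intro k hk
    rw [Finset.mem_range] at hk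
    have hkT : z (2 * k) ∈ T := h3 _ (by omega)
    rcases le_or_gt (ε / 2) (dist (z (2 * k)) x) with h | h
    · exact H_ball hT hkT hx h
    · refine H_ball hT hkT hy ?_
      have := dist_triangle_left x y (z (2 * k))
      linarith
  have hdisj : Set.PairwiseDisjoint (↑(Finset.range (N / 2 + 1)) : Set ℕ)
      (fun k => T ∩ Metric.ball (z (2 * k)) (ε / 2)) := by
    have key : ∀ a b : ℕ, a < b → b < N / 2 + 1 →
        Disjoint (T ∩ Metric.ball (z (2 * a)) (ε / 2)) (T ∩ Metric.ball (z (2 * b)) (ε / 2)) := by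
      intro a b hab hb
      have := hsep (2 * a) (2 * b) (by omega) (by omega)
      exact (Metric.ball_disjoint_ball (by linarith)).mono inter_subset_right inter_subset_right
    intro a ha b hb hab
    simp only [Finset.coe_range, mem_Iio] at ha hb
    rcases lt_or_gt_of_ne hab with h | h
    · exact key a b h hb
    · exact (key b a h ha).symm
  have hsum : ∑ k ∈ Finset.range (N / 2 + 1), μH[1] (T ∩ Metric.ball (z (2 * k)) (ε / 2)) ≤
      μH[1] T := by
    rw [← measure_biUnion_finset hdisj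
      (fun k _ => hTc.measurableSet.inter Metric.isOpen_ball.measurableSet)]
    exact measure_mono (iUnion₂_subset fun k _ => inter_subset_left)
  have h5 : ((N / 2 + 1 : ℕ) : ℝ≥0∞) * ENNReal.ofReal (ε / 2) ≤ μH[1] T := by
    refine le_trans ?_ hsum
    have := Finset.card_nsmul_le_sum _ _ _ hball
    simpa using this
  have h6 : ((N / 2 + 1 : ℕ) : ℝ) * (ε / 2) ≤ (μH[1] T).toReal := by
    have := ENNReal.toReal_mono hfin h5
    rw [ENNReal.toReal_mul, ENNReal.toReal_natCast, ENNReal.toReal_ofReal (by positivity)] at this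
    exact this
  have h7 : (N : ℝ) ≤ 2 * ((N / 2 + 1 : ℕ) : ℝ) := by
    have : N ≤ 2 * (N / 2 + 1) := by omega
    exact_mod_cast this
  nlinarith

/-- An `L`-Lipschitz path in `T` from `x` to `y`, parametrised by `[0,1]`. -/
def LPath (T : Set E) (x y : E) (L : ℝ) (γ : ℝ → E) : Prop :=
  γ 0 = x ∧ γ 1 = y ∧ (∀ t ∈ Icc (0:ℝ) 1, γ t ∈ T) ∧
    ∀ s ∈ Icc (0:ℝ) 1, ∀ t ∈ Icc (0:ℝ) 1, dist (γ s) (γ t) ≤ L * |s - t|

omit [MeasurableSpace E] [BorelSpace E] in
lemma path_limit {T : Set E} (hT : IsCompact T) {x y : E} (γ : ℕ → ℝ → E) (L e : ℕ → ℝ) {L0 : ℝ}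
    (hL : Tendsto L atTop (𝓝 L0)) (he : Tendsto e atTop (𝓝 0)) (h0 : ∀ k, γ k 0 = x)
    (h1 : ∀ k, γ k 1 = y) (hm : ∀ k, ∀ t ∈ Icc (0:ℝ) 1, γ k t ∈ T)
    (hl : ∀ k, ∀ s ∈ Icc (0:ℝ) 1, ∀ t ∈ Icc (0:ℝ) 1,
      dist (γ k s) (γ k t) ≤ L k * |s - t| + e k) : ∃ g, LPath T x y L0 g := by
  set U : Ultrafilter ℕ := hyperfilter ℕ with hU
  have hUle : (U : Filter ℕ) ≤ atTop := Nat.hyperfilter_le_atTop
  have hex : ∀ t ∈ Icc (0:ℝ) 1, ∃ z ∈ T, Tendsto (fun k => γ k t) U (𝓝 z) := by
    intro t ht
    obtain ⟨z, hz, hz'⟩ := hT.ultrafilter_le_nhds (U.map (fun k => γ k t)) (by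
      rw [le_principal_iff]
      change {k | γ k t ∈ T} ∈ (U : Filter ℕ)
      exact Filter.mem_of_superset Filter.univ_mem (fun k _ => hm k t ht))
    exact ⟨z, hz, hz'⟩
  haveI : Nonempty E := ⟨x⟩
  choose! g hgT hg using hex
  have m0 : (0:ℝ) ∈ Icc (0:ℝ) 1 := ⟨le_rfl, zero_le_one⟩
  have m1 : (1:ℝ) ∈ Icc (0:ℝ) 1 := ⟨zero_le_one, le_rfl⟩
  refine ⟨g, ?_, ?_, hgT, ?_⟩
  · have h := hg 0 m0
    simp only [h0] at h
    exact tendsto_nhds_unique h tendsto_const_nhds
  · have h := hg 1 m1
    simp only [h1] at h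
    exact tendsto_nhds_unique h tendsto_const_nhds
  · intro s hs t ht
    have h2 : Tendsto (fun k => dist (γ k s) (γ k t)) U (𝓝 (dist (g s) (g t))) :=
      (hg s hs).dist (hg t ht)
    have h3 : Tendsto (fun k => L k * |s - t| + e k) U (𝓝 (L0 * |s - t| + 0)) :=
      ((hL.mono_left hUle).mul_const _).add (he.mono_left hUle)
    rw [add_zero] at h3
    exact le_of_tendsto_of_tendsto h2 h3 (Eventually.of_forall fun k => hl k s hs t ht)

lemma exists_path {T : Set E} (hTc : IsCompact T) (hT : IsPreconnected T) {x y : E}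
    (hx : x ∈ T) (hy : y ∈ T) (hxy : x ≠ y) (hfin : μH[1] T ≠ ⊤) :
    ∃ g, LPath T x y (4 * (μH[1] T).toReal) g := by
  have hd : 0 < dist x y := dist_pos.mpr hxy
  set D := dist x y with hD
  set ℓ := (μH[1] T).toReal with hℓ
  have hch : ∀ k : ℕ, ∃ N z, Chain T (D / (k + 1)) x y N z ∧ N * (D / (k + 1)) ≤ 4 * ℓ := by
    intro k
    refine chain_len hTc.isClosed hT (by positivity) hx hy ?_ hfin
    rw [← hD]
    apply div_le_self hd.le
    have : (0:ℝ) ≤ k := Nat.cast_nonneg k
    linarith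
  choose N z hz hN using hch
  refine path_limit hTc (fun k t => z k ⌊t * N k⌋₊) (fun _ => 4 * ℓ) (fun k => D / (k + 1))
    tendsto_const_nhds ?_ ?_ ?_ ?_ ?_
  · exact tendsto_const_nhds.div_atTop (tendsto_natCast_atTop_atTop.atTop_add tendsto_const_nhds)
  · intro k
    simp only [zero_mul, Nat.floor_zero]
    exact (hz k).1
  · intro k
    simp only [one_mul, Nat.floor_natCast]
    exact (hz k).2.1
  · intro k t ht
    refine (hz k).2.2.1 _ ?_
    have : ⌊t * N k⌋₊ ≤ ⌊(N k : ℝ)⌋₊ := by
      apply Nat.floor_le_floor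
      have : (0:ℝ) ≤ N k := Nat.cast_nonneg _
      nlinarith [ht.2]
    rwa [Nat.floor_natCast] at this
  · intro k s hs t ht
    have hstep : ∀ a b : ℕ, a ≤ b → b ≤ N k →
        dist (z k a) (z k b) ≤ (b - a : ℝ) * (D / (k + 1)) := by
      intro a b hab
      induction b, hab using Nat.le_induction with
      | base => intro _; simp
      | succ b hab ih =>
        intro hb
        have h1 := ih (by omega)
        have h2 := (hz k).2.2.2 b (by omega)
        have h3 := dist_triangle (z k a) (z k b) (z k (b + 1))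
        push_cast
        nlinarith
    have hN0 : (0:ℝ) ≤ N k := Nat.cast_nonneg _
    have hDk : 0 ≤ D / ((k:ℝ) + 1) := by positivity
    have key : ∀ s t : ℝ, s ∈ Icc (0:ℝ) 1 → t ∈ Icc (0:ℝ) 1 → s ≤ t →
        dist (z k ⌊s * N k⌋₊) (z k ⌊t * N k⌋₊) ≤ 4 * ℓ * |s - t| + D / (k + 1) := by
      intro s t hs ht hst
      have h1 : ⌊s * N k⌋₊ ≤ ⌊t * N k⌋₊ := Nat.floor_le_floor (by nlinarith)
      have h2 : ⌊t * N k⌋₊ ≤ N k := by
        have : ⌊t * N k⌋₊ ≤ ⌊(N k : ℝ)⌋₊ := by
          apply Nat.floor_le_floor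
          nlinarith [ht.2]
        rwa [Nat.floor_natCast] at this
      have h3 := hstep _ _ h1 h2
      have h4 : ((⌊t * N k⌋₊ : ℕ) : ℝ) ≤ t * N k := Nat.floor_le (by nlinarith [ht.1])
      have h5 : s * N k < (⌊s * N k⌋₊ : ℕ) + 1 := Nat.lt_floor_add_one _
      have h6 : |s - t| = t - s := by rw [abs_sub_comm, abs_of_nonneg (by linarith)]
      rw [h6]
      have h7 := hN k
      calc _ ≤ _ := h3
        _ ≤ ((t - s) * N k + 1) * (D / (k + 1)) := by
            apply mul_le_mul_of_nonneg_right _ hDk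
            nlinarith
        _ = (t - s) * (N k * (D / (k + 1))) + D / (k + 1) := by ring
        _ ≤ (t - s) * (4 * ℓ) + D / (k + 1) := by
            have : 0 ≤ t - s := by linarith
            nlinarith [mul_le_mul_of_nonneg_left h7 this]
        _ = _ := by ring
    rcases le_total s t with hst | hst
    · exact key s t hs ht hst
    · have := key t s ht hs hst
      rw [dist_comm, abs_sub_comm]
      exact this

omit [MeasurableSpace E] [BorelSpace E] in
lemma LPath.shortcut {T : Set E} {x y : E} {L : ℝ} {γ : ℝ → E} (h : LPath T x y L γ) (hL : 0 ≤ L)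
    {s t : ℝ} (hs : 0 ≤ s) (hst : s < t) (ht : t ≤ 1) (he : γ s = γ t) (hne : t - s < 1) :
    ∃ g, LPath T x y (L * (1 - (t - s))) g := by
  obtain ⟨h0, h1, hm, hl⟩ := h
  set c := 1 - (t - s) with hc
  have hc0 : 0 < c := by linarith
  have hc1 : c ≤ 1 := by linarith
  refine ⟨fun u => if c * u ≤ s then γ (c * u) else γ (c * u + (t - s)), ?_, ?_, ?_, ?_⟩
  · simp [hs, h0]
  · by_cases h : c * 1 ≤ s
    · simp only [h, if_true]
      have h2 : c = s := by rw [mul_one] at h; linarith
      have h3 : t = 1 := by linarith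
      rw [mul_one, h2, he, h3, h1]
    · simp only [h, if_false]
      have : c * 1 + (t - s) = 1 := by rw [hc]; ring
      rw [this, h1]
  · intro u hu
    have h2 : 0 ≤ c * u := mul_nonneg hc0.le hu.1
    have h3 : c * u ≤ c := by nlinarith [hu.2]
    by_cases h : c * u ≤ s
    · simp only [h, if_true]
      exact hm _ ⟨h2, by linarith⟩
    · simp only [h, if_false]
      exact hm _ ⟨by linarith, by linarith⟩
  · have key : ∀ u ∈ Icc (0:ℝ) 1, ∀ v ∈ Icc (0:ℝ) 1, u ≤ v →
        dist (if c * u ≤ s then γ (c * u) else γ (c * u + (t - s)))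
          (if c * v ≤ s then γ (c * v) else γ (c * v + (t - s))) ≤ L * c * |u - v| := by
      intro u hu v hv huv
      have h2 : 0 ≤ c * u := mul_nonneg hc0.le hu.1
      have h3 : c * v ≤ c := by nlinarith [hv.2]
      have h4 : c * u ≤ c * v := by nlinarith
      have h5 : |u - v| = v - u := by rw [abs_sub_comm, abs_of_nonneg (by linarith)]
      rw [h5]
      by_cases hu' : c * u ≤ s
      · by_cases hv' : c * v ≤ s
        · simp only [hu', hv', if_true]
          have := hl (c * u) ⟨h2, by linarith⟩ (c * v) ⟨by linarith, by linarith⟩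
          rw [abs_sub_comm, abs_of_nonneg (by linarith)] at this
          calc _ ≤ _ := this
            _ = _ := by ring
        · simp only [hu', hv', if_true, if_false]
          push Not at hv'
          have g1 := hl (c * u) ⟨h2, by linarith⟩ s ⟨by linarith, by linarith⟩
          have g2 := hl t ⟨by linarith, by linarith⟩ (c * v + (t - s)) ⟨by linarith, by linarith⟩
          rw [abs_sub_comm, abs_of_nonneg (by linarith)] at g1 g2
          have g3 := dist_triangle (γ (c * u)) (γ s) (γ (c * v + (t - s)))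
          rw [he] at g1 g3
          calc _ ≤ _ := g3
            _ ≤ L * (s - c * u) + L * (c * v + (t - s) - t) := add_le_add g1 g2
            _ = _ := by ring
      · have hv' : ¬ c * v ≤ s := by
          push Not at hu' ⊢
          linarith
        simp only [hu', hv', if_false]
        push Not at hu' hv'
        have := hl (c * u + (t - s)) ⟨by linarith, by linarith⟩ (c * v + (t - s))
          ⟨by linarith, by linarith⟩
        rw [abs_sub_comm, abs_of_nonneg (by linarith)] at this
        calc _ ≤ _ := this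
          _ = _ := by ring
    intro u hu v hv
    rcases le_total u v with huv | huv
    · exact key u hu v hv huv
    · have := key v hv u hu huv
      rw [dist_comm, abs_sub_comm]
      exact this

/-- An injective arc. -/
structure IsArc (T : Set E) (x y : E) (γ : ℝ → E) (a b : ℝ) : Prop where
  le : a ≤ b
  cont : ContinuousOn γ (Icc a b)
  inj : InjOn γ (Icc a b)
  maps : ∀ t ∈ Icc a b, γ t ∈ T
  left : γ a = x
  right : γ b = y

lemma exists_arc {T : Set E} (hTc : IsCompact T) (hT : IsPreconnected T) {x y : E}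
    (hx : x ∈ T) (hy : y ∈ T) (hfin : μH[1] T ≠ ⊤) : ∃ γ a b, IsArc T x y γ a b := by
  by_cases hxy : x = y
  · subst hxy
    refine ⟨fun _ => x, 0, 0, le_rfl, continuousOn_const, ?_, fun _ _ => hx, rfl, rfl⟩
    intro s hs t ht _
    simp only [Icc_self, mem_singleton_iff] at hs ht
    rw [hs, ht]
  · set S : Set ℝ := {L | 0 ≤ L ∧ ∃ g, LPath T x y L g} with hS
    have hne : S.Nonempty := ⟨4 * (μH[1] T).toReal, by positivity, exists_path hTc hT hx hy hxy hfin⟩
    have hbdd : BddBelow S := ⟨0, fun L hL => hL.1⟩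
    obtain ⟨L, hLanti, hLlim, hLS⟩ := exists_seq_tendsto_sInf hne hbdd
    choose hL0 g hg using hLS
    have hΛ0 : 0 ≤ sInf S := le_csInf hne fun L hL => hL.1
    obtain ⟨γ, hγ⟩ := path_limit hTc g L (fun _ => 0) hLlim tendsto_const_nhds
      (fun k => (hg k).1) (fun k => (hg k).2.1) (fun k => (hg k).2.2.1)
      (fun k s hs t ht => by rw [add_zero]; exact (hg k).2.2.2 s hs t ht)
    have m0 : (0:ℝ) ∈ Icc (0:ℝ) 1 := ⟨le_rfl, zero_le_one⟩
    have m1 : (1:ℝ) ∈ Icc (0:ℝ) 1 := ⟨zero_le_one, le_rfl⟩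
    have hΛpos : 0 < sInf S := by
      rcases hΛ0.lt_or_eq with h | h
      · exact h
      · exfalso
        have := hγ.2.2.2 0 m0 1 m1
        rw [← h, zero_mul, hγ.1, hγ.2.1] at this
        exact hxy (dist_le_zero.mp this)
    refine ⟨γ, 0, 1, zero_le_one, ?_, ?_, hγ.2.2.1, hγ.1, hγ.2.1⟩
    · have hlip : LipschitzOnWith (Real.toNNReal (sInf S)) γ (Icc 0 1) := by
        apply LipschitzOnWith.of_dist_le_mul
        intro s hs t ht
        rw [Real.coe_toNNReal _ hΛ0, Real.dist_eq]
        exact hγ.2.2.2 s hs t ht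
      exact hlip.continuousOn
    · have key : ∀ s ∈ Icc (0:ℝ) 1, ∀ t ∈ Icc (0:ℝ) 1, s < t → γ s = γ t → False := by
        intro s hs t ht hst he
        have hlt : t - s < 1 := by
          rcases lt_or_eq_of_le (by linarith [hs.1, ht.2] : t - s ≤ 1) with h | h
          · exact h
          · exfalso
            have h1 : s = 0 := by linarith [hs.1, ht.2]
            have h2 : t = 1 := by linarith [hs.1, ht.2]
            rw [h1, h2, hγ.1, hγ.2.1] at he
            exact hxy he
        obtain ⟨g', hg'⟩ := hγ.shortcut hΛ0 hs.1 hst ht.2 he hlt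
        have hmem : sInf S * (1 - (t - s)) ∈ S := ⟨mul_nonneg hΛ0 (by linarith), g', hg'⟩
        have := csInf_le hbdd hmem
        nlinarith
      intro s hs t ht he
      by_contra hne
      rcases lt_or_gt_of_ne hne with h | h
      · exact key s hs t ht h he
      · exact key t ht s hs h he.symm

end Pool.Agent.R154.Steiner
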